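import Mathlib

-- part MP_0b7570_co.Path
section

/-! Vertex sets of paths and cycles, components, and a fan lemma. -/

namespace Pool.Agent.MP_0b7570_co

open Finset

set_option linter.unusedSectionVars false

variable {V : Type*} [DecidableEq V] {G : SimpleGraph V}

/-- `P G x y S`: `S` is the vertex set of a path of `G` from `x` to `y`. -/
inductive P (G : SimpleGraph V) : V → V → Finset V → Prop
  | single (x : V) : P G x x {x}
  | snoc {x y z : V} {S : Finset V} : P G x y S → G.Adj y z → z ∉ S → P G x z (insert z S)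

theorem P.left_mem {x y : V} {S : Finset V} (h : P G x y S) : x ∈ S := by
  induction h with
  | single => simp
  | snoc _ _ _ ih => exact mem_insert_of_mem ih

theorem P.right_mem {x y : V} {S : Finset V} (h : P G x y S) : y ∈ S := by
  cases h <;> simp

theorem P.pre {x y : V} {S : Finset V} (h : P G x y S) {z : V} (hz : z ∈ S) :
    ∃ Q, Q ⊆ S ∧ P G x z Q := by
  induction h with
  | single => rw [mem_singleton.1 hz]; exact ⟨_, Subset.refl _, P.single _⟩
  | @snoc y w S h1 h2 h3 ih =>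
    rcases mem_insert.1 hz with rfl | hz
    · exact ⟨_, Subset.refl _, P.snoc h1 h2 h3⟩
    · obtain ⟨Q, hQ, hp⟩ := ih hz
      exact ⟨Q, hQ.trans (subset_insert _ _), hp⟩

theorem P.join {x y x' y' : V} {S S' : Finset V} (h : P G x y S) (h' : P G x' y' S')
    (e : G.Adj y x') (d : Disjoint S S') : P G x y' (S ∪ S') := by
  induction h' with
  | single =>
    have : S ∪ {x'} = insert x' S := by ext; simp
    rw [this]
    exact P.snoc h e (by simpa using d)
  | @snoc y1 z S1 h1 h2 h3 ih =>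
    rw [union_insert]
    rw [disjoint_insert_right] at d
    exact P.snoc (ih d.2) h2 (by simp [d.1, h3])

theorem P.symm {x y : V} {S : Finset V} (h : P G x y S) : P G y x S := by
  induction h with
  | single => exact P.single _
  | @snoc y1 z S1 h1 h2 h3 ih =>
    rw [insert_eq]
    exact (P.single z).join ih h2.symm (by simpa using h3)

theorem P.extend {x y z : V} {S : Finset V} (h : P G x y S) (e : G.Adj y z) :
    ∃ Q, Q ⊆ insert z S ∧ P G x z Q := by
  by_cases hz : z ∈ S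
  · obtain ⟨Q, hQ, hp⟩ := h.pre hz
    exact ⟨Q, hQ.trans (subset_insert _ _), hp⟩
  · exact ⟨_, Subset.refl _, P.snoc h e hz⟩

theorem P.trans {x y z : V} {S S' : Finset V} (h : P G x y S) (h' : P G y z S') :
    ∃ Q, Q ⊆ S ∪ S' ∧ P G x z Q := by
  induction h' with
  | single => exact ⟨S, subset_union_left, h⟩
  | @snoc y1 w S1 h1 h2 h3 ih =>
    obtain ⟨Q, hQ, hp⟩ := ih
    obtain ⟨Q', hQ', hp'⟩ := hp.extend h2
    refine ⟨Q', fun v hv => ?_, hp'⟩
    rcases mem_insert.1 (hQ' hv) with rfl | hv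
    · simp
    · rcases mem_union.1 (hQ hv) with hv | hv <;> simp [hv]

theorem P.closed {x y : V} {S U Z : Finset V} (h : P G x y S) (hx : x ∈ U)
    (hc : ∀ u ∈ U, ∀ v, G.Adj u v → v ∈ U ∨ v ∈ Z) (d : Disjoint S Z) : y ∈ U := by
  induction h with
  | single => exact hx
  | @snoc y1 w S1 h1 h2 h3 ih =>
    rw [disjoint_insert_left] at d
    exact (hc _ (ih d.2) _ h2).resolve_right d.1

theorem P.weight {σ : V → ℤ} (hs : ∀ u v, G.Adj u v → σ u = - σ v) {x y : V} {S : Finset V}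
    (h : P G x y S) : 2 * ∑ v ∈ S, σ v = σ x + σ y := by
  induction h with
  | single => simp; ring
  | @snoc y1 w S1 h1 h2 h3 ih =>
    rw [sum_insert h3]
    have := hs _ _ h2
    omega

/-- The segment `c i, …, c j`. -/
noncomputable def seg (c : ℤ → V) (i j : ℤ) : Finset V := (Finset.Icc i j).image c

theorem mem_seg {c : ℤ → V} {i j : ℤ} {v : V} : v ∈ seg c i j ↔ ∃ t, i ≤ t ∧ t ≤ j ∧ c t = v := by
  simp [seg, and_assoc]

theorem mem_seg' {c : ℤ → V} {i j t : ℤ} (h1 : i ≤ t) (h2 : t ≤ j) : c t ∈ seg c i j :=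
  mem_seg.2 ⟨t, h1, h2, rfl⟩

theorem seg_path {c : ℤ → V} {i j : ℤ} (hij : i ≤ j)
    (ha : ∀ t, i ≤ t → t < j → G.Adj (c t) (c (t + 1)))
    (hi : ∀ s t, i ≤ s → s < t → t ≤ j → c s ≠ c t) : P G (c i) (c j) (seg c i j) := by
  induction j, hij using Int.leInduction with
  | base =>
    have : seg c i i = {c i} := by simp [seg]
    rw [this]; exact P.single _
  | succ j hj ih =>
    have : seg c i (j + 1) = insert (c (j + 1)) (seg c i j) := by
      ext v
      simp only [mem_seg, mem_insert]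
      constructor
      · rintro ⟨t, h1, h2, rfl⟩
        by_cases h : t = j + 1
        · left; rw [h]
        · right; exact ⟨t, h1, by omega, rfl⟩
      · rintro (rfl | ⟨t, h1, h2, rfl⟩)
        · exact ⟨j + 1, by omega, le_rfl, rfl⟩
        · exact ⟨t, h1, by omega, rfl⟩
    rw [this]
    refine P.snoc (ih (fun t h1 h2 => ha t h1 (by omega)) (fun s t h1 h2 h3 => hi s t h1 h2 (by omega)))
      (ha j hj (by omega)) ?_
    rw [mem_seg]
    rintro ⟨t, h1, h2, h3⟩
    exact hi t (j + 1) h1 (by omega) le_rfl h3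

theorem P.param {x y : V} {S : Finset V} (h : P G x y S) :
    ∃ (n : ℤ) (f : ℤ → V), 0 ≤ n ∧ f 0 = x ∧ f n = y ∧
      (∀ t, 0 ≤ t → t < n → G.Adj (f t) (f (t + 1))) ∧
      (∀ s t, 0 ≤ s → s < t → t ≤ n → f s ≠ f t) ∧ S = seg f 0 n := by
  induction h with
  | single => exact ⟨0, fun _ => x, le_rfl, rfl, rfl, fun t h1 h2 => by omega,
      fun s t h1 h2 h3 => by omega, by simp [seg]⟩
  | @snoc y1 w S1 h1 h2 h3 ih =>
    obtain ⟨n, f, hn, h0, hy, ha, hi, hS⟩ := ih
    refine ⟨n + 1, fun t => if t = n + 1 then w else f t, by omega, ?_, by simp, ?_, ?_, ?_⟩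
    · simp only; rw [if_neg (by omega), h0]
    · intro t ht1 ht2
      simp only
      rw [if_neg (by omega)]
      by_cases h : t = n
      · rw [if_pos (by omega), h, hy]; exact h2
      · rw [if_neg (by omega)]; exact ha t ht1 (by omega)
    · intro s t hs1 hs2 hs3
      simp only
      rw [if_neg (by omega)]
      by_cases h : t = n + 1
      · rw [if_pos h]
        intro e
        exact h3 (by rw [hS, ← e]; exact mem_seg' hs1 (by omega))
      · rw [if_neg h]; exact hi s t hs1 hs2 (by omega)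
    · ext v
      simp only [mem_insert, hS, mem_seg]
      constructor
      · rintro (rfl | ⟨t, h1, h2, rfl⟩)
        · exact ⟨n + 1, by omega, le_rfl, by simp⟩
        · exact ⟨t, h1, by omega, by rw [if_neg (by omega)]⟩
      · rintro ⟨t, h1, h2, rfl⟩
        by_cases h : t = n + 1
        · left; rw [if_pos h]
        · right; exact ⟨t, h1, by omega, by rw [if_neg h]⟩

/-- `Z` is the vertex set of a cycle. -/
def IsCyc (G : SimpleGraph V) (Z : Finset V) : Prop :=
  ∃ x y z, P G x y Z ∧ G.Adj y x ∧ z ∈ Z ∧ z ≠ x ∧ z ≠ y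

/-- A periodic parametrisation of a cycle of length `m`. -/
structure Cyc (G : SimpleGraph V) (c : ℤ → V) (m : ℤ) : Prop where
  three : 3 ≤ m
  adj : ∀ i, G.Adj (c i) (c (i + 1))
  per : ∀ i, c (i + m) = c i
  inj : ∀ s t, s < t → t < s + m → c s ≠ c t

theorem IsCyc.param {Z : Finset V} (h : IsCyc G Z) :
    ∃ c m, Cyc G c m ∧ ∀ v, v ∈ Z ↔ ∃ i, c i = v := by
  obtain ⟨x, y, z, hp, e, hz, hx, hy⟩ := h
  obtain ⟨n, f, hn, h0, hn', ha, hi, hS⟩ := hp.param
  have hn2 : 2 ≤ n := by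
    rw [hS, mem_seg] at hz
    obtain ⟨t, h1, h2, rfl⟩ := hz
    have : t ≠ 0 := by rintro rfl; exact hx h0
    have : t ≠ n := by rintro rfl; exact hy hn'
    omega
  have hpos : (0 : ℤ) < n + 1 := by omega
  refine ⟨fun i => f (i % (n + 1)), n + 1, ⟨by omega, ?_, ?_, ?_⟩, ?_⟩
  · intro i
    have h1 := Int.emod_nonneg i hpos.ne'
    have h2 := Int.emod_lt_of_pos i hpos
    have h3 : (i + 1) % (n + 1) = (i % (n + 1) + 1) % (n + 1) := by simp
    by_cases h : i % (n + 1) = n
    · rw [h3, h, Int.emod_self, h0, hn']; exact e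
    · rw [h3, Int.emod_eq_of_lt (a := i % (n + 1) + 1) (by omega) (by omega)]
      exact ha _ h1 (by omega)
  · intro i; simp
  · intro s t h1 h2 e
    have a1 := Int.emod_nonneg s hpos.ne'
    have a2 := Int.emod_lt_of_pos s hpos
    have b1 := Int.emod_nonneg t hpos.ne'
    have b2 := Int.emod_lt_of_pos t hpos
    have : s % (n + 1) = t % (n + 1) := by
      rcases lt_trichotomy (s % (n + 1)) (t % (n + 1)) with h | h | h
      · exact absurd e (hi _ _ a1 h (by omega))
      · exact h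
      · exact absurd e.symm (hi _ _ b1 h (by omega))
    have hd : (n + 1) ∣ t - s := 
      Int.dvd_of_emod_eq_zero (Int.emod_eq_emod_iff_emod_sub_eq_zero.1 this.symm)
    have := Int.le_of_dvd (by omega) hd
    omega
  · intro v
    rw [hS, mem_seg]
    constructor
    · rintro ⟨t, h1, h2, rfl⟩
      exact ⟨t, by simp only; rw [Int.emod_eq_of_lt h1 (by omega)]⟩
    · rintro ⟨i, rfl⟩
      have h2 := Int.emod_lt_of_pos i hpos
      exact ⟨_, Int.emod_nonneg i hpos.ne', by omega, rfl⟩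

namespace Cyc

variable {c : ℤ → V} {m : ℤ}

theorem per_mul (h : Cyc G c m) (i k : ℤ) : c (i + k * m) = c i := by
  induction k using Int.induction_on with
  | zero => simp
  | succ k ih => rw [← ih, ← h.per (i + k * m)]; congr 1; ring
  | pred k ih => rw [← ih, ← h.per (i + (-(k : ℤ) - 1) * m)]; congr 1; ring

theorem window (h : Cyc G c m) (i t : ℤ) : ∃ s, i ≤ s ∧ s < i + m ∧ c s = c t := by
  have hm : 0 < m := by have := h.three; omega
  refine ⟨i + (t - i) % m, ?_, ?_, ?_⟩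
  · have := Int.emod_nonneg (t - i) hm.ne'; omega
  · have := Int.emod_lt_of_pos (t - i) hm; omega
  · rw [← h.per_mul _ ((t - i) / m)]
    congr 1
    have := Int.emod_add_mul_ediv (t - i) m
    linarith [mul_comm m ((t - i) / m)]

theorem path (h : Cyc G c m) {i j : ℤ} (h1 : i ≤ j) (h2 : j < i + m) :
    P G (c i) (c j) (seg c i j) :=
  seg_path h1 (fun t _ _ => h.adj t) (fun s t a b d => h.inj s t b (by omega))

theorem notMem (h : Cyc G c m) {i j t : ℤ} (h1 : j < t) (h2 : t < i + m) : c t ∉ seg c i j := by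
  rw [mem_seg]
  rintro ⟨s, a, b, e⟩
  exact h.inj s t (by omega) (by omega) e

theorem notMem' (h : Cyc G c m) {i j t : ℤ} (h1 : t < i) (h2 : j < t + m) : c t ∉ seg c i j := by
  rw [mem_seg]
  rintro ⟨s, a, b, e⟩
  exact h.inj t s (by omega) (by omega) e.symm

theorem disj (h : Cyc G c m) {i j k l : ℤ} (h1 : j < k) (h2 : l < i + m) :
    Disjoint (seg c i j) (seg c k l) := by
  rw [disjoint_right]
  intro v hv
  obtain ⟨t, a, b, rfl⟩ := mem_seg.1 hv
  exact h.notMem (by omega) (by omega)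

theorem rev (h : Cyc G c m) : Cyc G (fun i => c (-i)) m where
  three := h.three
  adj i := by
    have := (h.adj (-(i + 1))).symm
    rwa [show -(i + 1) + 1 = -i by ring] at this
  per i := by
    have := h.per (-(i + m))
    rw [show -(i + m) + m = -i by ring] at this
    exact this.symm
  inj s t a b e := h.inj (-t) (-s) (by omega) (by omega) e.symm

end Cyc

theorem exists_first {p : ℤ → Prop} {a t : ℤ} (h1 : a < t) (ht : p t) :
    ∃ s, a < s ∧ s ≤ t ∧ p s ∧ ∀ r, a < r → r < s → ¬ p r := by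
  classical
  obtain ⟨s, ⟨hs1, hs2⟩, hs⟩ := Int.exists_least_of_bdd (P := fun s => a < s ∧ p s)
    ⟨a, fun z hz => hz.1.le⟩ ⟨t, h1, ht⟩
  exact ⟨s, hs1, hs t ⟨h1, ht⟩, hs2, fun r a1 a2 a3 => by have := hs r ⟨a1, a3⟩; omega⟩

theorem exists_last {p : ℤ → Prop} {b t : ℤ} (h1 : t < b) (ht : p t) :
    ∃ s, s < b ∧ t ≤ s ∧ p s ∧ ∀ r, s < r → r < b → ¬ p r := by
  classical
  obtain ⟨s, ⟨hs1, hs2⟩, hs⟩ := Int.exists_greatest_of_bdd (P := fun s => s < b ∧ p s)
    ⟨b, fun z hz => hz.1.le⟩ ⟨t, h1, ht⟩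
  exact ⟨s, hs1, hs t ⟨h1, ht⟩, hs2, fun r a1 a2 a3 => by have := hs r ⟨a2, a3⟩; omega⟩

/-- `K` induces a connected subgraph (or is empty). -/
def Conn (G : SimpleGraph V) (K : Finset V) : Prop :=
  ∀ x ∈ K, ∀ y ∈ K, ∃ Q, Q ⊆ K ∧ P G x y Q

theorem exists_comp (U : Finset V) {x : V} (hx : x ∈ U) :
    ∃ K, K ⊆ U ∧ x ∈ K ∧ Conn G K ∧ ∀ u ∈ K, ∀ v ∈ U, G.Adj u v → v ∈ K := by
  classical
  have key : ∀ y Q, Q ⊆ U → P G x y Q → Q ⊆ U.filter (fun y => ∃ Q, Q ⊆ U ∧ P G x y Q) := by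
    intro y Q hQ hp z hz
    obtain ⟨Q', h1, h2⟩ := hp.pre hz
    exact mem_filter.2 ⟨hQ hz, Q', h1.trans hQ, h2⟩
  refine ⟨U.filter (fun y => ∃ Q, Q ⊆ U ∧ P G x y Q), filter_subset _ _,
    mem_filter.2 ⟨hx, {x}, by simpa using hx, P.single x⟩, ?_, ?_⟩
  · intro y hy z hz
    obtain ⟨-, Q1, h1, p1⟩ := mem_filter.1 hy
    obtain ⟨-, Q2, h2, p2⟩ := mem_filter.1 hz
    obtain ⟨Q, hQ, hp⟩ := p1.symm.trans p2
    exact ⟨Q, hQ.trans (union_subset (key _ _ h1 p1) (key _ _ h2 p2)), hp⟩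
  · intro u hu v hv e
    obtain ⟨-, Q1, h1, p1⟩ := mem_filter.1 hu
    obtain ⟨Q, hQ, hp⟩ := p1.extend e
    exact mem_filter.2 ⟨hv, Q, hQ.trans (insert_subset hv h1), hp⟩

theorem Conn.sub {K U Z : Finset V} (h : Conn G K) {x : V} (hx : x ∈ K) (hxU : x ∈ U)
    (hc : ∀ u ∈ U, ∀ v, G.Adj u v → v ∈ U ∨ v ∈ Z) (d : Disjoint K Z) : K ⊆ U := by
  intro y hy
  obtain ⟨Q, hQ, hp⟩ := h x hx y hy
  exact hp.closed hxU hc (d.mono_left hQ)

theorem fan_aux {x y β : V} {W : Finset V} (n : ℕ) : ∀ S D : Finset V, #D ≤ n → P G x y S →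
    Disjoint S W → β ∈ D → Disjoint D S → Disjoint D W →
    (∀ u ∈ D, ∀ v, G.Adj u v → v ∈ D ∨ v ∈ S ∨ v ∈ W) →
    (∃ S, P G x y S ∧ Disjoint S W ∧ β ∈ S) ∨
    ∃ (D : Finset V) (s : V), β ∈ D ∧ Disjoint D W ∧ x ∉ D ∧ y ∉ D ∧
      ∀ u ∈ D, ∀ v, G.Adj u v → v ∈ D ∨ v = s ∨ v ∈ W := by
  induction n with
  | zero =>
    intro S D hD _ _ hb
    have := card_pos.2 ⟨β, hb⟩
    omega
  | succ n ih =>
    intro S D hD hp hSW hb hDS hDW hc
    obtain ⟨E, hED, hbE, hE, hEc⟩ := exists_comp (G := G) D hb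
    have hES : Disjoint E S := hDS.mono_left hED
    have hEW : Disjoint E W := hDW.mono_left hED
    have hc' : ∀ u ∈ E, ∀ v, G.Adj u v → v ∈ E ∨ v ∈ S ∨ v ∈ W := by
      intro u hu v e
      rcases hc u (hED hu) v e with h | h
      · exact Or.inl (hEc u hu v h e)
      · exact Or.inr h
    obtain ⟨k, f, hk, h0, hk', ha, hi, rfl⟩ := hp.param
    by_cases h2 : ∃ i j, 0 ≤ i ∧ i < j ∧ j ≤ k ∧ (∃ u ∈ E, G.Adj u (f i)) ∧ ∃ u ∈ E, G.Adj u (f j)
    · obtain ⟨i, j0, hi0, hij0, hj0, ⟨u, hu, eu⟩, hj⟩ := h2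
      obtain ⟨j, hij, hjj, ⟨u', hu', eu'⟩, hno⟩ :=
        exists_first (p := fun j => ∃ u ∈ E, G.Adj u (f j)) hij0 hj
      obtain ⟨Q, hQ, hpQ⟩ := hE u hu u' hu'
      have p1 : P G (f 0) (f i) (seg f 0 i) :=
        seg_path hi0 (fun t a b => ha t a (by omega)) (fun s t a b d => hi s t a b (by omega))
      have p2 : P G (f j) (f k) (seg f j k) :=
        seg_path (by omega) (fun t a b => ha t (by omega) b) (fun s t a b d => hi s t (by omega) b d)
      have s1 : seg f 0 i ⊆ seg f 0 k := by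
        intro v hv
        obtain ⟨t, a, b, rfl⟩ := mem_seg.1 hv
        exact mem_seg' a (by omega)
      have s2 : seg f j k ⊆ seg f 0 k := by
        intro v hv
        obtain ⟨t, a, b, rfl⟩ := mem_seg.1 hv
        exact mem_seg' (by omega) b
      have d12 : Disjoint (seg f 0 i) (seg f j k) := by
        rw [disjoint_left]
        intro v hv hv'
        obtain ⟨s, a, b, rfl⟩ := mem_seg.1 hv
        obtain ⟨t, a', b', e⟩ := mem_seg.1 hv'
        exact hi s t a (by omega) b' e.symm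
      have pp : P G x y (seg f 0 i ∪ Q ∪ seg f j k) := by
        rw [← h0, ← hk']
        refine (p1.join hpQ eu.symm ?_).join p2 eu' ?_
        · exact (hES.mono hQ s1).symm
        · exact disjoint_union_left.2 ⟨d12, hES.mono hQ s2⟩
      have dW : Disjoint (seg f 0 i ∪ Q ∪ seg f j k) W :=
        disjoint_union_left.2 ⟨disjoint_union_left.2 ⟨hSW.mono_left s1, hEW.mono_left hQ⟩,
          hSW.mono_left s2⟩
      by_cases hbQ : β ∈ Q
      · exact Or.inl ⟨_, pp, dW, by simp [hbQ]⟩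
      · refine ih _ (E \ Q) ?_ pp dW (mem_sdiff.2 ⟨hbE, hbQ⟩) ?_ (hEW.mono_left sdiff_subset) ?_
        · have h1 : #(E \ Q) < #E := card_lt_card ⟨sdiff_subset, fun h =>
            (mem_sdiff.1 (h hu)).2 hpQ.left_mem⟩
          have := card_le_card hED
          omega
        · exact disjoint_union_right.2 ⟨disjoint_union_right.2 ⟨hES.mono sdiff_subset s1,
            sdiff_disjoint⟩, hES.mono sdiff_subset s2⟩
        · intro w hw v e
          have hwE := (mem_sdiff.1 hw).1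
          rcases hc' w hwE v e with h | h | h
          · by_cases hv : v ∈ Q
            · right; left; simp [hv]
            · left; exact mem_sdiff.2 ⟨h, hv⟩
          · right; left
            obtain ⟨t, a, b, rfl⟩ := mem_seg.1 h
            by_cases h1 : t ≤ i
            · simp [mem_seg' a h1]
            · have : j ≤ t := by
                by_contra h2
                exact hno t (by omega) (by omega) ⟨w, hwE, e⟩
              simp [mem_seg' this b]
          · right; right; exact h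
    · right
      have hx : x ∉ E := fun h => disjoint_left.1 hES h hp.left_mem
      have hy : y ∉ E := fun h => disjoint_left.1 hES h hp.right_mem
      by_cases h1 : ∃ i, 0 ≤ i ∧ i ≤ k ∧ ∃ u ∈ E, G.Adj u (f i)
      · obtain ⟨i, a, b, hu⟩ := h1
        refine ⟨E, f i, hbE, hEW, hx, hy, fun u hu' v e => ?_⟩
        rcases hc' u hu' v e with h | h | h
        · exact Or.inl h
        · obtain ⟨t, a', b', rfl⟩ := mem_seg.1 h
          rcases lt_trichotomy i t with h | h | h
          · exact absurd ⟨i, t, a, h, b', hu, u, hu', e⟩ h2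
          · right; left; rw [h]
          · exact absurd ⟨t, i, a', h, b, ⟨u, hu', e⟩, hu⟩ h2
        · exact Or.inr (Or.inr h)
      · refine ⟨E, x, hbE, hEW, hx, hy, fun u hu' v e => ?_⟩
        rcases hc' u hu' v e with h | h | h
        · exact Or.inl h
        · obtain ⟨t, a', b', rfl⟩ := mem_seg.1 h
          exact absurd ⟨t, a', b', u, hu', e⟩ h1
        · exact Or.inr (Or.inr h)

theorem fan [Fintype V] {x y β : V} {W S : Finset V} (hp : P G x y S) (hd : Disjoint S W)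
    (hb : β ∉ W) :
    (∃ S, P G x y S ∧ Disjoint S W ∧ β ∈ S) ∨
    ∃ (D : Finset V) (s : V), β ∈ D ∧ Disjoint D W ∧ x ∉ D ∧ y ∉ D ∧
      ∀ u ∈ D, ∀ v, G.Adj u v → v ∈ D ∨ v = s ∨ v ∈ W := by
  by_cases h : β ∈ S
  · exact Or.inl ⟨S, hp, hd, h⟩
  · refine fan_aux _ S (univ \ (S ∪ W)) le_rfl hp hd (by simp [h, hb]) ?_ ?_ ?_
    · exact sdiff_disjoint.mono_right subset_union_left
    · exact sdiff_disjoint.mono_right subset_union_right
    · intro u _ v _
      by_cases h1 : v ∈ S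
      · exact Or.inr (Or.inl h1)
      · by_cases h2 : v ∈ W
        · exact Or.inr (Or.inr h2)
        · left; simp [h1, h2]

end Pool.Agent.MP_0b7570_co

end

-- part MP_0b7570_co.Star
section

/-! First half of the structure theorem: a largest bad component and the cycles avoiding it. -/

namespace Pool.Agent.MP_0b7570_co

open Finset

set_option linter.unusedSectionVars false

variable {V : Type*} [DecidableEq V] [Fintype V] {G : SimpleGraph V} {σ : V → ℤ}

/-- The combinatorial consequences of the hypotheses that the proof uses. -/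
structure Hyp (G : SimpleGraph V) (σ : V → ℤ) : Prop where
  sg : ∀ v, σ v = 1 ∨ σ v = -1
  adj : ∀ u v, G.Adj u v → σ u = - σ v
  bal : ∀ Z U, IsCyc G Z → Disjoint U Z → (∀ u ∈ U, ∀ v, G.Adj u v → v ∈ U ∨ v ∈ Z) →
    ∑ v ∈ U, σ v = 0
  br : ∀ (ε : ℤ) (U S : Finset V), (∃ u ∈ U, σ u = ε) →
    (∃ p q, p ≠ q ∧ p ∉ U ∧ q ∉ U ∧ σ p = ε ∧ σ q = ε) →
    (∀ u ∈ U, σ u = ε → ∀ v, G.Adj u v → v ∈ U ∨ v ∈ S) → ε * ∑ v ∈ U, σ v + 2 ≤ #S
  deg : ∀ v x y, ∃ z, G.Adj v z ∧ z ≠ x ∧ z ≠ y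

/-- `v` is an outer neighbour of `K`. -/
def T (G : SimpleGraph V) (K : Finset V) (v : V) : Prop := v ∉ K ∧ ∃ u ∈ K, G.Adj u v

/-- `K` dominates the graph. -/
def Good (G : SimpleGraph V) (K : Finset V) : Prop := ∀ v, v ∈ K ∨ ∃ u ∈ K, G.Adj u v

theorem Hyp.cyc_two (H : Hyp G σ) {Z : Finset V} (hZ : IsCyc G Z) {ε : ℤ} (hε : ε = 1 ∨ ε = -1) :
    ∃ p q, p ≠ q ∧ p ∈ Z ∧ q ∈ Z ∧ σ p = ε ∧ σ q = ε := by
  obtain ⟨c, m, hc, hZ⟩ := hZ.param
  have h3 := hc.three
  have a0 := H.adj _ _ (hc.adj 0)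
  have a1 := H.adj _ _ (hc.adj 1)
  have a2 := H.adj _ _ (hc.adj 2)
  have s0 := H.sg (c 0)
  norm_num at a0 a1 a2
  by_cases h : σ (c 0) = ε
  · exact ⟨c 0, c 2, hc.inj _ _ (by omega) (by omega), (hZ _).2 ⟨_, rfl⟩, (hZ _).2 ⟨_, rfl⟩, h,
      by omega⟩
  · exact ⟨c 1, c 3, hc.inj _ _ (by omega) (by omega), (hZ _).2 ⟨_, rfl⟩, (hZ _).2 ⟨_, rfl⟩,
      by omega, by omega⟩

theorem Hyp.exists_col (H : Hyp G σ) {K : Finset V} (hne : K.Nonempty) (hw : ∑ v ∈ K, σ v = 0)
    {ε : ℤ} (hε : ε = 1 ∨ ε = -1) : ∃ u ∈ K, σ u = ε := by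
  by_contra h
  push Not at h
  have : ∑ v ∈ K, σ v = ∑ _v ∈ K, -ε := sum_congr rfl fun v hv => by
    have := h v hv
    have := H.sg v
    omega
  rw [this, sum_const, nsmul_eq_mul] at hw
  have := card_pos.2 hne
  rcases hε with rfl | rfl <;> omega

theorem Hyp.two_T (H : Hyp G σ) {Z K : Finset V} (hZ : IsCyc G Z) (d : Disjoint K Z)
    (hne : K.Nonempty) (hc : ∀ u ∈ K, ∀ v, G.Adj u v → v ∈ K ∨ v ∈ Z) {ε : ℤ}
    (hε : ε = 1 ∨ ε = -1) : ∃ p q, p ≠ q ∧ T G K p ∧ T G K q ∧ σ p = ε ∧ σ q = ε := by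
  classical
  have hw := H.bal Z K hZ d hc
  have hε' : -ε = 1 ∨ -ε = -1 := by omega
  obtain ⟨p, q, hpq, hp, hq, sp, sq⟩ := H.cyc_two hZ hε'
  have := H.br (-ε) K (univ.filter fun v => T G K v ∧ σ v = ε) (H.exists_col hne hw hε')
    ⟨p, q, hpq, disjoint_right.1 d hp, disjoint_right.1 d hq, sp, sq⟩ (by
      intro u hu su v e
      by_cases hv : v ∈ K
      · exact Or.inl hv
      · right
        have := H.adj _ _ e
        exact mem_filter.2 ⟨mem_univ _, ⟨hv, u, hu, e⟩, by omega⟩)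
  rw [hw] at this
  obtain ⟨p, hp, q, hq, hpq⟩ := one_lt_card.1
    (show 1 < #(univ.filter fun v => T G K v ∧ σ v = ε) by omega)
  have hp := (mem_filter.1 hp).2
  have hq := (mem_filter.1 hq).2
  exact ⟨p, q, hpq, hp.1, hq.1, hp.2, hq.2⟩

/-- `K` is a balanced connected set such that all larger components of complements of cycles
are dominating. -/
structure Mx (G : SimpleGraph V) (σ : V → ℤ) (K : Finset V) : Prop where
  H : Hyp G σ
  conn : Conn G K
  w0 : ∑ v ∈ K, σ v = 0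
  big : ∀ Z K', IsCyc G Z → Disjoint K' Z → Conn G K' →
    (∀ u ∈ K', ∀ v, G.Adj u v → v ∈ K' ∨ v ∈ Z) → #K < #K' → Good G K'
  two : ∀ ε : ℤ, ε = 1 ∨ ε = -1 → ∃ p q, p ≠ q ∧ T G K p ∧ T G K q ∧ σ p = ε ∧ σ q = ε

namespace Mx

variable {K : Finset V}

theorem F2 (M : Mx G σ K) {x y : V} {S : Finset V} (hxy : x ≠ y) (tx : T G K x) (ty : T G K y)
    (hp : P G x y S) (d : Disjoint K S) (cov : ∀ t, T G K t → t ∈ S) : σ x = - σ y := by
  obtain ⟨hx, u, hu, eu⟩ := tx
  obtain ⟨hy, u', hu', eu'⟩ := ty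
  obtain ⟨Q, hQ, hq⟩ := M.conn u' hu' u hu
  have hZ : IsCyc G (S ∪ Q) := ⟨x, u, y, hp.join hq eu'.symm (d.mono_left hQ).symm, eu,
    mem_union_left _ hp.right_mem, hxy.symm, fun h => hy (h ▸ hu)⟩
  have h1 := M.H.bal _ (K \ Q) hZ
    (disjoint_union_right.2 ⟨d.mono_left sdiff_subset, sdiff_disjoint⟩) (by
      intro w hw v e
      by_cases hv : v ∈ K
      · by_cases hv' : v ∈ Q
        · exact Or.inr (mem_union_right _ hv')
        · exact Or.inl (mem_sdiff.2 ⟨hv, hv'⟩)
      · exact Or.inr (mem_union_left _ (cov v ⟨hv, w, (mem_sdiff.1 hw).1, e⟩)))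
  have h2 := sum_sdiff (f := σ) hQ
  have h3 := hq.weight M.H.adj
  have h4 := M.w0
  have h5 := M.H.adj _ _ eu
  have h6 := M.H.adj _ _ eu'
  omega

theorem F3 (M : Mx G σ K) {Z U : Finset V} (hZ : IsCyc G Z) (d : Disjoint K Z) {t : V}
    (ht : T G K t) (htZ : t ∉ Z) (hU : ∀ u ∈ U, ∀ v, G.Adj u v → v ∈ U ∨ v ∈ Z) (htU : t ∉ U)
    {v : V} (hv : v ∈ Z) : ∃ u, G.Adj v u ∧ u ∉ U ∧ u ∉ Z := by
  obtain ⟨K', h1, h2, h3, h4⟩ := exists_comp (G := G) (univ \ Z) (x := t) (by simp [htZ])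
  have d' : Disjoint K' Z := sdiff_disjoint.mono_left h1
  have hc : ∀ u ∈ K', ∀ v, G.Adj u v → v ∈ K' ∨ v ∈ Z := by
    intro u hu v e
    by_cases hv : v ∈ Z
    · exact Or.inr hv
    · exact Or.inl (h4 u hu v (by simp [hv]) e)
  obtain ⟨htK, u, hu, e⟩ := ht
  have huK : u ∈ K' := (hc t h2 u e.symm).resolve_right (disjoint_left.1 d hu)
  have hsub : K ⊆ K' := M.conn.sub hu huK hc d
  have hg := M.big Z K' hZ d' h3 hc (card_lt_card ⟨hsub, fun h => htK (h h2)⟩)
  rcases hg v with h | ⟨w, hw, e'⟩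
  · exact absurd hv (disjoint_left.1 d' h)
  · refine ⟨w, e'.symm, fun hwU => htU (h3.sub hw hwU hU d' h2), disjoint_left.1 d' hw⟩

theorem alt (M : Mx G σ K) {c : ℤ → V} {m : ℤ} (hc : Cyc G c m) (hK : ∀ i, c i ∉ K)
    (cov : ∀ t, T G K t → ∃ i, c i = t) {i j : ℤ} (h1 : i < j) (h2 : j < i + m)
    (ti : T G K (c i)) (tj : T G K (c j)) (hno : ∀ r, i < r → r < j → ¬ T G K (c r)) :
    σ (c i) = - σ (c j) := by
  have := M.F2 (x := c j) (y := c (i + m)) (S := seg c j (i + m)) (hc.inj _ _ (by omega) (by omega))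
    tj (by rw [hc.per]; exact ti) (hc.path (by omega) (by omega)) (by
      rw [disjoint_right]
      intro v hv
      obtain ⟨t, -, -, rfl⟩ := mem_seg.1 hv
      exact hK t) (by
      intro t ht
      obtain ⟨r, rfl⟩ := cov t ht
      obtain ⟨s, a, b, e⟩ := hc.window (i + 1) r
      rw [← e] at ht ⊢
      have : j ≤ s := by
        by_contra h
        exact hno s (by omega) (by omega) ht
      exact mem_seg' this (by omega))
  rw [hc.per] at this
  omega

theorem F4 (M : Mx G σ K) {Z : Finset V} (hZ : IsCyc G Z) (d : Disjoint K Z)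
    (cov : ∀ t, T G K t → t ∈ Z) (v : V) : v ∈ K ∨ v ∈ Z := by
  by_contra hv
  push Not at hv
  obtain ⟨L, h1, h2, h3, h4⟩ := exists_comp (G := G) (univ \ Z) (x := v) (by simp [hv.2])
  have d' : Disjoint L Z := sdiff_disjoint.mono_left h1
  have hcL : ∀ u ∈ L, ∀ v, G.Adj u v → v ∈ L ∨ v ∈ Z := by
    intro u hu v e
    by_cases hv : v ∈ Z
    · exact Or.inr hv
    · exact Or.inl (h4 u hu v (by simp [hv]) e)
  have hcK : ∀ u ∈ K, ∀ v, G.Adj u v → v ∈ K ∨ v ∈ Z := by
    intro u hu v e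
    by_cases hv : v ∈ K
    · exact Or.inl hv
    · exact Or.inr (cov v ⟨hv, u, hu, e⟩)
  have dKL : Disjoint K L := by
    rw [disjoint_right]
    intro w hw hwK
    exact hv.1 (h3.sub hw hwK hcK d' h2)
  obtain ⟨c, m, hc, hcZ⟩ := hZ.param
  have hm := hc.three
  have hK : ∀ i, c i ∉ K := fun i => disjoint_right.1 d ((hcZ _).2 ⟨i, rfl⟩)
  have hL : ∀ i, c i ∉ L := fun i => disjoint_right.1 d' ((hcZ _).2 ⟨i, rfl⟩)
  have dK : ∀ i j, Disjoint K (seg c i j) := by
    intro i j
    rw [disjoint_right]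
    intro v hv
    obtain ⟨t, -, -, rfl⟩ := mem_seg.1 hv
    exact hK t
  have dL : ∀ i j, Disjoint L (seg c i j) := by
    intro i j
    rw [disjoint_right]
    intro v hv
    obtain ⟨t, -, -, rfl⟩ := mem_seg.1 hv
    exact hL t
  have cov' : ∀ t, T G K t → ∃ i, c i = t := fun t ht => (hcZ _).1 (cov t ht)
  have covL : ∀ t, T G L t → ∃ i, c i = t := by
    rintro t ⟨ht, u, hu, e⟩
    exact (hcZ _).1 ((hcL u hu t e).resolve_left ht)
  by_cases hcase : ∃ t, T G K t ∧ ¬ T G L t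
  · obtain ⟨t, ht, htL⟩ := hcase
    obtain ⟨j, rfl⟩ := cov' t ht
    obtain ⟨p, q, hpq, tp, tq, -, -⟩ := M.H.two_T hZ d' ⟨v, h2⟩ hcL (Or.inl rfl)
    obtain ⟨ip, rfl⟩ := covL p tp
    obtain ⟨iq, rfl⟩ := covL q tq
    obtain ⟨a, a1, a2, ea⟩ := hc.window j ip
    obtain ⟨b, b1, b2, eb⟩ := hc.window j iq
    rw [← ea] at tp hpq
    rw [← eb] at tq hpq
    have ha : a ≠ j := by rintro rfl; exact htL tp
    have hb : b ≠ j := by rintro rfl; exact htL tq
    have hab : a ≠ b := by rintro rfl; exact hpq rfl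
    obtain ⟨s, s1, s2, ts, hs⟩ := exists_first (p := fun r => T G L (c r)) (a := j)
      (t := min a b) (by omega) (by rcases min_choice a b with h | h <;> rw [h] <;> assumption)
    obtain ⟨r, r1, r2, tr, hr⟩ := exists_last (p := fun r => T G L (c r)) (b := j + m)
      (t := max a b) (by omega) (by rcases max_choice a b with h | h <;> rw [h] <;> assumption)
    have hsr : s < r := by omega
    obtain ⟨-, us, hus, es⟩ := ts
    obtain ⟨-, ur, hur, er⟩ := tr
    obtain ⟨Q, hQ, hq⟩ := h3 ur hur us hus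
    have hZ' : IsCyc G (seg c s r ∪ Q) := ⟨c s, us, c r,
      (hc.path hsr.le (by omega)).join hq er.symm ((dL s r).mono_left hQ).symm, es,
      mem_union_left _ (mem_seg' hsr.le le_rfl), (hc.inj _ _ hsr (by omega)).symm,
      fun h => hL r (h ▸ hus)⟩
    have hnb : ∀ u ∈ L, ∀ w, G.Adj u w → w ∈ L \ Q ∨ w ∈ seg c s r ∪ Q := by
      intro u hu w e
      by_cases hw : w ∈ L
      · by_cases hw' : w ∈ Q
        · exact Or.inr (mem_union_right _ hw')
        · exact Or.inl (mem_sdiff.2 ⟨hw, hw'⟩)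
      · have tw : T G L w := ⟨hw, u, hu, e⟩
        obtain ⟨i, rfl⟩ := covL w tw
        obtain ⟨i', i1, i2, ei⟩ := hc.window j i
        rw [← ei] at tw ⊢
        have : i' ≠ j := by rintro rfl; exact htL tw
        have k1 : s ≤ i' := by
          by_contra h
          exact hs i' (by omega) (by omega) tw
        have k2 : i' ≤ r := by
          by_contra h
          exact hr i' (by omega) (by omega) tw
        exact Or.inr (mem_union_left _ (mem_seg' k1 k2))
    obtain ⟨u, e, hu1, hu2⟩ := M.F3 (U := L \ Q) hZ'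
      (disjoint_union_right.2 ⟨dK s r, dKL.mono_right hQ⟩) ht
      (by
        rw [mem_union, not_or]
        exact ⟨hc.notMem' s1 (by omega), fun h => hL j (hQ h)⟩)
      (fun u hu => hnb u (mem_sdiff.1 hu).1) (fun h => hL j (mem_sdiff.1 h).1)
      (mem_union_right _ hq.right_mem)
    rcases hnb us hus u e with h | h
    · exact hu1 h
    · exact hu2 h
  · push Not at hcase
    obtain ⟨x, y, hxy, tx, ty, sx, sy⟩ := M.two 1 (Or.inl rfl)
    obtain ⟨i, rfl⟩ := cov' x tx
    obtain ⟨j0, rfl⟩ := cov' y ty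
    obtain ⟨j, j1, j2, ej⟩ := hc.window i j0
    rw [← ej] at ty hxy sy
    have hij : i < j := lt_of_le_of_ne j1 (by rintro rfl; exact hxy rfl)
    obtain ⟨p, p1, p2, tp, hp⟩ := exists_first (p := fun r => T G K (c r)) hij ty
    obtain ⟨q, q1, q2, tq, hq⟩ := exists_first (p := fun r => T G K (c r)) j2
      (by rw [hc.per]; exact tx)
    have a1 := M.alt hc hK cov' p1 (by omega) tx tp hp
    have a2 := M.alt hc hK cov' q1 (by omega) ty tq hq
    obtain ⟨-, ux, hux, ex⟩ := hcase _ tx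
    obtain ⟨-, uy, huy, ey⟩ := hcase _ ty
    obtain ⟨Q, hQ, hqq⟩ := h3 ux hux uy huy
    have pp : P G (c q) (c p) (seg c q (i + m) ∪ Q ∪ seg c p j) := by
      refine ((hc.path q2 (by omega)).join hqq (by rw [hc.per]; exact ex.symm)
        ((dL _ _).mono_left hQ).symm).join (hc.path p2 (by omega)).symm ey ?_
      exact disjoint_union_left.2 ⟨(hc.disj q1 (by omega)).symm, (dL _ _).mono_left hQ⟩
    have := M.F2 (hc.inj p q (by omega) (by omega)).symm tq tp pp
      (disjoint_union_right.2 ⟨disjoint_union_right.2 ⟨dK _ _, dKL.mono_right hQ⟩, dK _ _⟩) (by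
        intro t ht
        obtain ⟨r, rfl⟩ := cov' t ht
        obtain ⟨s, a, b, e⟩ := hc.window (i + 1) r
        rw [← e] at ht ⊢
        have k1 : p ≤ s := by
          by_contra h
          exact hp s (by omega) (by omega) ht
        by_cases k2 : s ≤ j
        · exact mem_union_right _ (mem_seg' k1 k2)
        · have k3 : q ≤ s := by
            by_contra h
            exact hq s (by omega) (by omega) ht
          exact mem_union_left _ (mem_union_left _ (mem_seg' k3 (by omega))))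
    omega

end Mx

end Pool.Agent.MP_0b7570_co

end

-- part MP_0b7570_co.Chord
section

/-! Second half of the structure theorem: chords of the spanning cycle. -/

namespace Pool.Agent.MP_0b7570_co

open Finset

set_option linter.unusedSectionVars false

variable {V : Type*} [DecidableEq V] [Fintype V] {G : SimpleGraph V} {σ : V → ℤ}

theorem Hyp.five (H : Hyp G σ) {b a a' b' α β α' β' : V} {S : Finset V}
    (e0 : G.Adj b a) (e1 : G.Adj α b) (e2 : G.Adj b a') (e3 : G.Adj a' b') (e4 : G.Adj b' α')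
    (e5 : G.Adj a β) (hbb : b ≠ b') (haa : a ≠ a')
    (na : ∀ v, G.Adj a v → v = b ∨ v = β ∨ v = b') (na' : ∀ v, G.Adj a' v → v = β' ∨ v = b' ∨ v = b)
    (nb : ∀ v, G.Adj b v → v = α ∨ v = a ∨ v = a') (nb' : ∀ v, G.Adj b' v → v = a' ∨ v = α' ∨ v = a)
    (hp : P G α' α S) (hd : Disjoint S {b, a, a', b'}) (hβ : β ∉ ({b, a, a', b'} : Finset V))
    (two : ∃ p q, p ≠ q ∧ p ∉ ({a, a'} : Finset V) ∧ q ∉ ({a, a'} : Finset V) ∧
      σ p = σ a ∧ σ q = σ a) : False := by
  have s0 := H.adj _ _ e0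
  have s2 := H.adj _ _ e2
  have s3 := H.adj _ _ e3
  have s5 := H.adj _ _ e5
  have sa := H.sg a
  rcases fan hp hd hβ with ⟨S, hp, hd, hS⟩ | ⟨D, s, hD, hd, hx, hy, hc⟩
  · simp only [disjoint_insert_right, disjoint_singleton_right] at hd
    obtain ⟨d1, d2, d3, d4⟩ := hd
    have pp := ((hp.snoc e1 d1).snoc e2 (by simp [d3, e2.ne'])).snoc e3
      (by simp [d4, e3.ne', hbb.symm])
    have hZ : IsCyc G (insert b' (insert a' (insert b S))) :=
      ⟨α', b', b, pp, e4, by simp, fun h => d1 (h ▸ hp.left_mem), hbb⟩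
    have := H.bal _ {a} hZ (by
      have : a ≠ b' := by rintro rfl; omega
      simp [d2, haa, e0.ne', this]) (by
      intro u hu v e
      rw [mem_singleton.1 hu] at e
      rcases na v e with rfl | rfl | rfl <;> simp [hS])
    simp at this
    omega
  · simp only [disjoint_insert_right, disjoint_singleton_right] at hd
    obtain ⟨d1, d2, d3, d4⟩ := hd
    have hc' : ∀ u ∈ D, ∀ v, G.Adj u v → v ∈ D ∨ v = s ∨ v = a ∨ v = a' := by
      intro u hu v e
      rcases hc u hu v e with h | h | h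
      · exact Or.inl h
      · exact Or.inr (Or.inl h)
      · simp only [mem_insert, mem_singleton] at h
        rcases h with rfl | rfl | rfl | rfl
        · rcases nb u e.symm with rfl | rfl | rfl <;> contradiction
        · simp
        · simp
        · rcases nb' u e.symm with rfl | rfl | rfl <;> contradiction
    have hcol : ∀ u ∈ D, σ u ≠ σ a := by
      intro u0 hu0 su0
      have t1 : ∃ p q, p ≠ q ∧ p ∉ D ∧ q ∉ D ∧ σ p = σ a ∧ σ q = σ a :=
        ⟨a, a', haa, d2, d3, rfl, by omega⟩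
      have t2 : ∃ p q, p ≠ q ∧ p ∉ D ∧ q ∉ D ∧ σ p = - σ a ∧ σ q = - σ a :=
        ⟨b, b', hbb, d1, d4, s0, by omega⟩
      by_cases hs : σ s = σ a
      · have h1 := H.br (σ a) D ∅ ⟨u0, hu0, su0⟩ t1 (by
          intro u hu su v e
          have := H.adj _ _ e
          rcases hc' u hu v e with h | rfl | rfl | rfl
          · exact Or.inl h
          all_goals omega)
        have h2 := H.br (-σ a) D {s, a, a'} ⟨β, hD, by omega⟩ t2 (by
          intro u hu su v e
          simpa using hc' u hu v e)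
        have h3 : #({s, a, a'} : Finset V) ≤ 3 := card_le_three
        simp only [card_empty] at h1
        have h4 : -σ a * ∑ v ∈ D, σ v = -(σ a * ∑ v ∈ D, σ v) := by ring
        omega
      · have h1 := H.br (σ a) D {s} ⟨u0, hu0, su0⟩ t1 (by
          intro u hu su v e
          have := H.adj _ _ e
          rcases hc' u hu v e with h | rfl | rfl | rfl
          · exact Or.inl h
          · simp
          all_goals omega)
        have h2 := H.br (-σ a) D {a, a'} ⟨β, hD, by omega⟩ t2 (by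
          intro u hu su v e
          have := H.adj _ _ e
          rcases hc' u hu v e with h | rfl | rfl | rfl
          · exact Or.inl h
          · omega
          · simp
          · simp)
        have h3 : #({a, a'} : Finset V) ≤ 2 := card_le_two
        simp only [card_singleton] at h1
        have h4 : -σ a * ∑ v ∈ D, σ v = -(σ a * ∑ v ∈ D, σ v) := by ring
        omega
    obtain ⟨z, ez, z1, z2⟩ := H.deg β s a
    have sz := H.adj _ _ ez
    have hz : z = a' := by
      rcases hc' β hD z ez with h | h | h | h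
      · exact absurd (by omega) (hcol z h)
      · exact absurd h z1
      · exact absurd h z2
      · exact h
    rw [hz] at ez
    have hββ : β = β' := by
      rcases na' β ez.symm with h | h | h
      · exact h
      · exact absurd (by simp [h]) hβ
      · exact absurd (by simp [h]) hβ
    have h1 := H.br (σ a) {a, a'} {b, β, b'} ⟨a, by simp, rfl⟩ two (by
      intro u hu su v e
      right
      simp only [mem_insert, mem_singleton] at hu ⊢
      rcases hu with rfl | rfl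
      · exact na v e
      · have := na' v e
        rw [← hββ] at this
        tauto)
    have h3 : #({b, β, b'} : Finset V) ≤ 3 := card_le_three
    rw [sum_pair haa, show σ a' = σ a by omega] at h1
    rcases sa with h | h <;> rw [h] at h1 <;> omega

/-- The cycle `c` spans the complement of `K`. -/
structure Ctx (G : SimpleGraph V) (σ : V → ℤ) (K : Finset V) (c : ℤ → V) (m : ℤ) : Prop where
  M : Mx G σ K
  hc : Cyc G c m
  hK : ∀ i, c i ∉ K
  all : ∀ v, v ∉ K → ∃ i, c i = v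

/-- A chord of the cycle `c` from position `i` to position `k`. -/
def Chord (G : SimpleGraph V) (c : ℤ → V) (m i k : ℤ) : Prop :=
  i + 1 < k ∧ k < i + m - 1 ∧ G.Adj (c i) (c k)

namespace Ctx

variable {K : Finset V} {c : ℤ → V} {m : ℤ}

theorem rev (C : Ctx G σ K c m) : Ctx G σ K (fun i => c (-i)) m :=
  ⟨C.M, C.hc.rev, fun i => C.hK _, fun v hv => by
    obtain ⟨i, rfl⟩ := C.all v hv
    exact ⟨-i, by simp⟩⟩

theorem dK (C : Ctx G σ K c m) (i j : ℤ) : Disjoint K (seg c i j) := by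
  rw [disjoint_right]
  intro v hv
  obtain ⟨t, -, -, rfl⟩ := mem_seg.1 hv
  exact C.hK t

theorem win (C : Ctx G σ K c m) (i : ℤ) {v : V} (hv : v ∉ K) :
    ∃ s, i ≤ s ∧ s < i + m ∧ c s = v := by
  obtain ⟨r, rfl⟩ := C.all v hv
  exact C.hc.window i r

theorem alt (C : Ctx G σ K c m) {i j : ℤ} (h1 : i < j) (h2 : j < i + m)
    (ti : T G K (c i)) (tj : T G K (c j)) (hno : ∀ r, i < r → r < j → ¬ T G K (c r)) :
    σ (c i) = - σ (c j) :=
  C.M.alt C.hc C.hK (fun t ht => C.all t ht.1) h1 h2 ti tj hno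

theorem nK (C : Ctx G σ K c m) {i : ℤ} (hi : ¬ T G K (c i)) {v : V} (e : G.Adj (c i) v) :
    v ∉ K := fun h => hi ⟨C.hK i, v, h, e.symm⟩

theorem nbr (C : Ctx G σ K c m) {i : ℤ} (hi : ¬ T G K (c i)) {v : V} (e : G.Adj (c i) v) :
    v = c (i - 1) ∨ v = c (i + 1) ∨ ∃ k, Chord G c m i k ∧ c k = v := by
  obtain ⟨s, a, b, rfl⟩ := C.win i (C.nK hi e)
  have h0 : s ≠ i := by rintro rfl; exact e.ne rfl
  by_cases h1 : s = i + 1
  · right; left; rw [h1]
  · by_cases h2 : s = i - 1 + m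
    · left; rw [h2, C.hc.per]
    · right; right; exact ⟨s, ⟨by omega, by omega, e⟩, rfl⟩

theorem flip (C : Ctx G σ K c m) {i k : ℤ} (h : Chord G c m i k) : Chord G c m k (i + m) := by
  obtain ⟨h1, h2, e⟩ := h
  exact ⟨by omega, by omega, by rw [C.hc.per]; exact e.symm⟩

theorem CS1 (C : Ctx G σ K c m) {i k : ℤ} (h : Chord G c m i k) :
    ∃ t, i < t ∧ t < k ∧ T G K (c t) := by
  obtain ⟨h1, h2, e⟩ := h
  by_contra hno
  push Not at hno
  have hZ : IsCyc G (seg c k (i + m)) := ⟨c k, c (i + m), c (k + 1),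
    C.hc.path (by omega) (by omega), by rw [C.hc.per]; exact e, mem_seg' (by omega) (by omega),
    (C.hc.adj k).ne', C.hc.inj _ _ (by omega) (by omega)⟩
  have := C.M.F4 hZ (C.dK _ _) (by
    intro t ht
    obtain ⟨s, a, b, rfl⟩ := C.win (i + 1) ht.1
    have : k ≤ s := by
      by_contra h
      exact hno s (by omega) (by omega) ht
    exact mem_seg' this (by omega)) (c (i + 1))
  rcases this with h | h
  · exact C.hK _ h
  · exact C.hc.notMem' h1 (by omega) h

theorem CS2 (C : Ctx G σ K c m) {i k : ℤ} (h : Chord G c m i k) :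
    ∃ t, k < t ∧ t < i + m ∧ T G K (c t) := C.CS1 (C.flip h)

theorem X (C : Ctx G σ K c m) {i k s t : ℤ} (h : Chord G c m i k) (s1 : i < s) (s2 : s < k)
    (ts : T G K (c s)) (hs : ∀ r, s < r → r < k → ¬ T G K (c r)) (t1 : k < t) (t2 : t < i + m)
    (tt : T G K (c t)) (ht : ∀ r, t < r → r < i + m → ¬ T G K (c r)) : σ (c t) = - σ (c s) := by
  obtain ⟨h1, h2, e⟩ := h
  refine C.M.F2 (S := seg c k t ∪ seg c i s) (C.hc.inj _ _ (by omega) (by omega)).symm tt ts
    ((C.hc.path t1.le (by omega)).symm.join (C.hc.path s1.le (by omega)) e.symm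
      (C.hc.disj s2 t2).symm) (disjoint_union_right.2 ⟨C.dK _ _, C.dK _ _⟩) ?_
  intro v hv
  obtain ⟨r, a, b, rfl⟩ := C.win i hv.1
  by_cases k1 : r ≤ s
  · exact mem_union_right _ (mem_seg' a k1)
  · have k2 : k ≤ r := by
      by_contra h
      exact hs r (by omega) (by omega) hv
    have k3 : r ≤ t := by
      by_contra h
      exact ht r (by omega) (by omega) hv
    exact mem_union_left _ (mem_seg' k2 k3)

theorem Y (C : Ctx G σ K c m) {i k s t : ℤ} (h : Chord G c m i k) (t1 : i < t) (t2 : t < k)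
    (tt : T G K (c t)) (ht : ∀ r, i < r → r < t → ¬ T G K (c r)) (s1 : k < s) (s2 : s < i + m)
    (ts : T G K (c s)) (hs : ∀ r, k < r → r < s → ¬ T G K (c r)) : σ (c s) = - σ (c t) := by
  obtain ⟨h1, h2, e⟩ := h
  refine C.M.F2 (S := seg c s (i + m) ∪ seg c t k) (C.hc.inj _ _ (by omega) (by omega)).symm ts tt
    ((C.hc.path s2.le (by omega)).join (C.hc.path t2.le (by omega)).symm
      (by rw [C.hc.per]; exact e) (C.hc.disj s1 (by omega)).symm)
    (disjoint_union_right.2 ⟨C.dK _ _, C.dK _ _⟩) ?_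
  intro v hv
  obtain ⟨r, a, b, rfl⟩ := C.win (i + 1) hv.1
  by_cases k1 : s ≤ r
  · exact mem_union_left _ (mem_seg' k1 (by omega))
  · have k2 : r ≤ k := by
      by_contra h
      exact hs r (by omega) (by omega) hv
    have k3 : t ≤ r := by
      by_contra h
      exact ht r (by omega) (by omega) hv
    exact mem_union_right _ (mem_seg' k3 k2)

theorem B1 (C : Ctx G σ K c m) {i k : ℤ} (hi : ¬ T G K (c i)) (h : Chord G c m i k) :
    ¬ T G K (c k) := by
  intro tk
  obtain ⟨x, x1, x2, tx⟩ := C.CS1 h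
  obtain ⟨y, y1, y2, ty⟩ := C.CS2 h
  obtain ⟨t, t1, t2, tt, ht⟩ := exists_first (p := fun r => T G K (c r)) x1 tx
  obtain ⟨s, s1, s2, ts, hs⟩ := exists_last (p := fun r => T G K (c r)) x2 tx
  obtain ⟨s', s1', s2', ts', hs'⟩ := exists_first (p := fun r => T G K (c r)) y1 ty
  obtain ⟨t', t1', t2', tt', ht'⟩ := exists_last (p := fun r => T G K (c r)) y2 ty
  have a1 := C.X h (by omega) s1 ts hs (by omega) t1' tt' ht'
  have a2 := C.Y h t1 (by omega) tt ht s1' (by omega) ts' hs'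
  have a3 := C.alt s1 (by omega) ts tk hs
  have a4 := C.alt s1' (by omega) tk ts' hs'
  have a5 := C.alt (i := t') (j := t + m) (by omega) (by omega) tt' (by rw [C.hc.per]; exact tt) (by
    intro r r1 r2
    rcases lt_trichotomy r (i + m) with h | h | h
    · exact ht' r r1 h
    · rw [h, C.hc.per]; exact hi
    · have := ht (r - m) (by omega) (by omega)
      rwa [← C.hc.per, sub_add_cancel] at this)
  rw [C.hc.per] at a5
  have := C.M.H.sg (c k)
  omega

theorem A4' (C : Ctx G σ K c m) {i k k' : ℤ} (hi : ¬ T G K (c i)) (h : Chord G c m i k)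
    (e' : G.Adj (c (i + 1)) (c k')) (k1 : k < k') (k2 : k' < i + m) : k' = k + 1 := by
  obtain ⟨h1, h2, e⟩ := id h
  have h' : Chord G c m (i + 1) k' := ⟨by omega, by omega, e'⟩
  by_cases hT : ∃ r, k < r ∧ r < k' ∧ T G K (c r)
  · exfalso
    obtain ⟨q0, q1, q2, tq0⟩ := hT
    obtain ⟨q, q1', q2', tq, hq⟩ := exists_last (p := fun r => T G K (c r)) q2 tq0
    obtain ⟨x, x1, x2, tx⟩ := C.CS1 h
    obtain ⟨s, s1, s2, ts, hs⟩ := exists_last (p := fun r => T G K (c r)) x2 tx
    obtain ⟨y, y1, y2, ty⟩ := C.CS2 h'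
    have y3 : y ≠ i + m := by
      rintro rfl
      rw [C.hc.per] at ty
      exact hi ty
    obtain ⟨t, t1, t2, tt, ht⟩ := exists_last (p := fun r => T G K (c r)) (b := i + m)
      (t := y) (by omega) ty
    have a1 := C.X h (by omega) s1 ts hs (by omega) t1 tt ht
    have a2 := C.X h' (s := q) (t := t) (by omega) q1' tq hq (by omega) (by omega) tt (by
      intro r r1 r2
      by_cases h : r = i + m
      · rw [h, C.hc.per]; exact hi
      · exact ht r r1 (by omega))
    have pp : P G (c s) (c q) (seg c (i + 1) s ∪ seg c k' (i + m) ∪ seg c k q) := by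
      refine ((C.hc.path (by omega) (by omega)).symm.join (C.hc.path (by omega) (by omega)) e'
        (C.hc.disj (by omega) (by omega))).join (C.hc.path (by omega) (by omega))
        (by rw [C.hc.per]; exact e) ?_
      exact disjoint_union_left.2 ⟨C.hc.disj s1 (by omega), (C.hc.disj q1' (by omega)).symm⟩
    have a3 := C.M.F2 (C.hc.inj _ _ (by omega) (by omega)) ts tq pp
      (disjoint_union_right.2 ⟨disjoint_union_right.2 ⟨C.dK _ _, C.dK _ _⟩, C.dK _ _⟩) (by
        intro v hv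
        obtain ⟨r, a, b, rfl⟩ := C.win (i + 1) hv.1
        by_cases l1 : r ≤ s
        · exact mem_union_left _ (mem_union_left _ (mem_seg' a l1))
        · have l2 : k ≤ r := by
            by_contra h
            exact hs r (by omega) (by omega) hv
          by_cases l3 : r ≤ q
          · exact mem_union_right _ (mem_seg' l2 l3)
          · have l4 : k' ≤ r := by
              by_contra h
              exact hq r (by omega) (by omega) hv
            exact mem_union_left _ (mem_union_right _ (mem_seg' l4 (by omega))))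
    have := C.M.H.sg (c s)
    omega
  · push Not at hT
    have hZ : IsCyc G (seg c k' (i + m) ∪ seg c (i + 1) k) := ⟨c k', c (i + 1), c k,
      (C.hc.path (by omega) (by omega)).join (C.hc.path (by omega) (by omega)).symm
        (by rw [C.hc.per]; exact e) (C.hc.disj k1 (by omega)).symm, e',
      mem_union_right _ (mem_seg' (by omega) le_rfl), C.hc.inj _ _ k1 (by omega),
      (C.hc.inj _ _ h1 (by omega)).symm⟩
    have := C.M.F4 hZ (disjoint_union_right.2 ⟨C.dK _ _, C.dK _ _⟩) (by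
      intro t ht
      obtain ⟨r, a, b, rfl⟩ := C.win (i + 1) ht.1
      by_cases l1 : r ≤ k
      · exact mem_union_right _ (mem_seg' a l1)
      · have l4 : k' ≤ r := by
          by_contra h
          exact hT r (by omega) (by omega) ht
        exact mem_union_left _ (mem_seg' l4 (by omega))) (c (k + 1))
    by_contra hk
    rcases this with h | h
    · exact C.hK _ h
    · rcases mem_union.1 h with h | h
      · exact C.hc.notMem' (by omega) (by omega) h
      · exact C.hc.notMem (by omega) (by omega) h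

theorem A4 (C : Ctx G σ K c m) {i k : ℤ} (hi : ¬ T G K (c i)) (hi' : ¬ T G K (c (i + 1)))
    (h : Chord G c m i k) : Chord G c m (i + 1) (k + 1) := by
  obtain ⟨h1, h2, e⟩ := id h
  obtain ⟨y, y1, y2, ty⟩ := C.CS2 h
  have hZ : IsCyc G (seg c i k) := ⟨c i, c k, c (i + 1), C.hc.path (by omega) (by omega), e.symm,
    mem_seg' (by omega) (by omega), (C.hc.adj i).ne', C.hc.inj _ _ h1 (by omega)⟩
  obtain ⟨u, eu, -, hu⟩ := C.M.F3 (U := ∅) hZ (C.dK _ _) ty (C.hc.notMem y1 y2) (by simp) (by simp)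
    (v := c (i + 1)) (mem_seg' (by omega) (by omega))
  obtain ⟨k', a, b, rfl⟩ := C.win i (C.nK hi' eu)
  have : k < k' := by
    by_contra h
    exact hu (mem_seg' a (by omega))
  have hk := C.A4' hi h eu this b
  rw [hk] at eu
  exact ⟨by omega, by omega, eu⟩

theorem U1 (C : Ctx G σ K c m) {i k l : ℤ} (hi : ¬ T G K (c i)) (hi' : ¬ T G K (c (i + 1)))
    (h : Chord G c m i k) (h' : Chord G c m i l) : k = l := by
  have a := C.A4 hi hi' h
  have a' := C.A4 hi hi' h'
  rcases lt_trichotomy k l with hh | hh | hh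
  · have := C.A4' hi h a'.2.2 (by omega) (by have := h'.2.1; omega)
    omega
  · exact hh
  · have := C.A4' hi h' a.2.2 (by omega) (by have := h.2.1; omega)
    omega

theorem U2 (C : Ctx G σ K c m) {i k l : ℤ} (hi : ¬ T G K (c i)) (hi' : ¬ T G K (c (i + 1)))
    (h : Chord G c m (i + 1) k) (h' : Chord G c m (i + 1) l) : k = l := by
  have key : ∀ k, Chord G c m (i + 1) k → Chord G (fun i => c (-i)) m (-(i + 1)) (m - k) := by
    rintro k ⟨h1, h2, e⟩
    refine ⟨by omega, by omega, ?_⟩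
    simp only [neg_neg]
    rwa [← C.hc.per (-(m - k)), show -(m - k) + m = k by ring]
  have := C.rev.U1 (i := -(i + 1)) (by simpa using hi') (by simpa using hi) (key k h) (key l h')
  omega

theorem Nb (C : Ctx G σ K c m) {i k : ℤ} (hi : ¬ T G K (c i)) (hi' : ¬ T G K (c (i + 1)))
    (h : Chord G c m i k) :
    (∀ v, G.Adj (c i) v → v = c (i - 1) ∨ v = c (i + 1) ∨ v = c k) ∧
    (∀ v, G.Adj (c (i + 1)) v → v = c i ∨ v = c (i + 2) ∨ v = c (k + 1)) := by
  constructor
  · intro v e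
    rcases C.nbr hi e with h1 | h1 | ⟨l, hl, rfl⟩
    · exact Or.inl h1
    · exact Or.inr (Or.inl h1)
    · rw [C.U1 hi hi' h hl]; simp
  · intro v e
    rcases C.nbr hi' e with h1 | h1 | ⟨l, hl, rfl⟩
    · left; rw [h1]; simp
    · right; left; rw [h1, add_assoc]; norm_num
    · rw [C.U2 hi hi' (C.A4 hi hi' h) hl]; simp

theorem pair (C : Ctx G σ K c m) {i : ℤ} (hi : ¬ T G K (c i)) (hi' : ¬ T G K (c (i + 1))) :
    False := by
  obtain ⟨z, ez, z1, z2⟩ := C.M.H.deg (c i) (c (i - 1)) (c (i + 1))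
  obtain ⟨k, h, -⟩ := ((C.nbr hi ez).resolve_left z1).resolve_left z2
  obtain ⟨h1, h2, e⟩ := id h
  have h' := C.A4 hi hi' h
  have hk := C.B1 hi h
  have hk' := C.B1 hi' h'
  obtain ⟨n1, n2⟩ := C.Nb hi hi' h
  obtain ⟨n3, n4⟩ := C.Nb hk hk' (C.flip h)
  rw [C.hc.per] at n3
  rw [show i + m + 1 = i + 1 + m by ring, C.hc.per] at n4
  obtain ⟨x, x1, x2, tx⟩ := C.CS1 h
  obtain ⟨y, y1, y2, ty⟩ := C.CS2 h
  have x3 : x ≠ i + 1 := by rintro rfl; exact hi' tx
  have y3 : y ≠ k + 1 := by rintro rfl; exact hk' ty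
  have hp := C.hc.path (i := k + 2) (j := i - 1 + m) (by omega) (by omega)
  rw [C.hc.per] at hp
  have e1 := C.hc.adj (i - 1)
  rw [sub_add_cancel] at e1
  have e4 := C.hc.adj (k + 1)
  rw [show k + 1 + 1 = k + 2 by ring] at e4
  have e5 := C.hc.adj (i + 1)
  rw [show i + 1 + 1 = i + 2 by ring] at e5
  refine C.M.H.five (C.hc.adj i) e1 e (C.hc.adj k) e4 e5 (C.hc.inj _ _ (by omega) (by omega))
    (C.hc.inj _ _ (by omega) (by omega)) n2 n3 n1 n4 hp ?_ ?_ ?_
  · simp only [disjoint_insert_right, disjoint_singleton_right]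
    refine ⟨?_, ?_, C.hc.notMem' (by omega) (by omega), C.hc.notMem' (by omega) (by omega)⟩
    · rw [← C.hc.per i]; exact C.hc.notMem (by omega) (by omega)
    · rw [← C.hc.per (i + 1)]; exact C.hc.notMem (by omega) (by omega)
  · simp only [mem_insert, mem_singleton, not_or]
    exact ⟨(C.hc.inj _ _ (by omega) (by omega)).symm, (C.hc.inj _ _ (by omega) (by omega)).symm,
      C.hc.inj _ _ (by omega) (by omega), C.hc.inj _ _ (by omega) (by omega)⟩
  · obtain ⟨p, q, hpq, tp, tq, sp, sq⟩ := C.M.two _ (C.M.H.sg (c (i + 1)))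
    refine ⟨p, q, hpq, ?_, ?_, sp, sq⟩
    · simp only [mem_insert, mem_singleton, not_or]
      constructor <;> rintro rfl <;> contradiction
    · simp only [mem_insert, mem_singleton, not_or]
      constructor <;> rintro rfl <;> contradiction

theorem good (C : Ctx G σ K c m) : Good G K := by
  intro v
  by_contra hv
  push Not at hv
  obtain ⟨i, rfl⟩ := C.all v hv.1
  have hi : ¬ T G K (c i) := fun ⟨_, u, hu, e⟩ => hv.2 u hu e
  have hm := C.hc.three
  by_cases h1 : T G K (c (i + 1))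
  · by_cases h2 : T G K (c (i - 1))
    · have a := C.alt (by omega) (by omega) h2 h1 (by
        intro r r1 r2
        rwa [show r = i by omega])
      have e1 := C.hc.adj (i - 1)
      rw [sub_add_cancel] at e1
      have b := C.M.H.adj _ _ e1
      have d := C.M.H.adj _ _ (C.hc.adj i)
      have := C.M.H.sg (c i)
      omega
    · exact C.pair h2 (by rwa [sub_add_cancel])
  · exact C.pair hi h1

end Ctx

/-- Structure theorem: a component of the complement of a cycle dominates the graph. -/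
theorem Hyp.star (H : Hyp G σ) {Z K : Finset V} (hZ : IsCyc G Z) (d : Disjoint K Z)
    (hne : K.Nonempty) (hK : Conn G K) (hc : ∀ u ∈ K, ∀ v, G.Adj u v → v ∈ K ∨ v ∈ Z) :
    Good G K := by
  classical
  by_contra hg
  obtain ⟨K, hK, hmax⟩ := exists_max_image (univ.filter fun K : Finset V => ∃ Z, IsCyc G Z ∧
    Disjoint K Z ∧ K.Nonempty ∧ Conn G K ∧ (∀ u ∈ K, ∀ v, G.Adj u v → v ∈ K ∨ v ∈ Z) ∧ ¬ Good G K)
    card ⟨K, mem_filter.2 ⟨mem_univ _, Z, hZ, d, hne, hK, hc, hg⟩⟩
  obtain ⟨-, Z, hZ, d, hne, hK, hc, hg⟩ := mem_filter.1 hK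
  have M : Mx G σ K := ⟨H, hK, H.bal Z K hZ d hc, fun Z' K' a1 a2 a3 a4 a5 => by
    by_contra hg'
    have := hmax K' (mem_filter.2 ⟨mem_univ _, Z', a1, a2, card_pos.1 (by omega), a3, a4, hg'⟩)
    omega, fun ε hε => H.two_T hZ d hne hc hε⟩
  have h4 := M.F4 hZ d (by
    rintro t ⟨ht, u, hu, e⟩
    exact (hc u hu t e).resolve_left ht)
  obtain ⟨c, m, hcyc, hcZ⟩ := hZ.param
  exact hg (Ctx.good (σ := σ) (c := c) (m := m) ⟨M, hcyc,
    fun i => disjoint_right.1 d ((hcZ _).2 ⟨i, rfl⟩),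
    fun v hv => (hcZ _).1 ((h4 v).resolve_left hv)⟩)

end Pool.Agent.MP_0b7570_co

end

-- part MP_0b7570_co.Finish
section

/-! From the structure theorem to completeness. -/

namespace Pool.Agent.MP_0b7570_co

open Finset

set_option linter.unusedSectionVars false

variable {V : Type*} [DecidableEq V] [Fintype V] {G : SimpleGraph V} {σ : V → ℤ}

theorem Hyp.exists_cyc (H : Hyp G σ) (a : V) : ∃ Z, IsCyc G Z ∧ a ∉ Z := by
  classical
  obtain ⟨z0, e0, -, -⟩ := H.deg a a a
  obtain ⟨S, hS, hmax⟩ := exists_max_image (univ.filter fun S : Finset V => ∃ x y, P G x y S ∧ a ∉ S)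
    card ⟨{z0}, mem_filter.2 ⟨mem_univ _, z0, z0, P.single _, by simpa using e0.ne⟩⟩
  obtain ⟨-, x, y, hp, ha⟩ := mem_filter.1 hS
  obtain ⟨n, f, hn, h0, hy, hadj, hinj, rfl⟩ := hp.param
  obtain ⟨z, ez, z1, z2⟩ := H.deg y a (f (n - 1))
  have hz : z ∈ seg f 0 n := by
    by_contra hz
    have := hmax _ (mem_filter.2 ⟨mem_univ _, x, z, hp.snoc ez hz, by simp [ha, z1.symm]⟩)
    rw [card_insert_of_notMem hz] at this
    omega
  obtain ⟨j, j1, j2, rfl⟩ := mem_seg.1 hz
  have j3 : j ≠ n := by rintro rfl; exact ez.ne hy.symm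
  have j4 : j ≠ n - 1 := by rintro rfl; exact z2 rfl
  refine ⟨seg f j n, ⟨f j, f n, f (j + 1),
    seg_path j2 (fun t a b => hadj t (by omega) b) (fun s t a b d => hinj s t (by omega) b d),
    by rw [hy]; exact ez, mem_seg' (by omega) (by omega), (hinj _ _ j1 (by omega) (by omega)).symm,
    hinj _ _ (by omega) (by omega) le_rfl⟩, fun h => ha ?_⟩
  obtain ⟨t, t1, t2, rfl⟩ := mem_seg.1 h
  exact mem_seg' (by omega) t2

theorem Hyp.complete (H : Hyp G σ) (a b : V) (hab : σ b = - σ a) : G.Adj a b := by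
  classical
  obtain ⟨Z0, hZ0, ha0⟩ := H.exists_cyc a
  obtain ⟨Z, hZ, hmax⟩ := exists_max_image (univ.filter fun Z : Finset V => IsCyc G Z ∧ a ∉ Z)
    card ⟨Z0, mem_filter.2 ⟨mem_univ _, hZ0, ha0⟩⟩
  obtain ⟨-, hZ, ha⟩ := mem_filter.1 hZ
  obtain ⟨K, h1, haK, hK, h4⟩ := exists_comp (G := G) (univ \ Z) (x := a) (by simp [ha])
  have d : Disjoint K Z := sdiff_disjoint.mono_left h1
  have hcK : ∀ u ∈ K, ∀ v, G.Adj u v → v ∈ K ∨ v ∈ Z := by
    intro u hu v e
    by_cases hv : v ∈ Z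
    · exact Or.inr hv
    · exact Or.inl (h4 u hu v (by simp [hv]) e)
  have hg := H.star hZ d ⟨a, haK⟩ hK hcK
  obtain ⟨c, m, hc, hcZ⟩ := hZ.param
  have hm := hc.three
  have hcK' : ∀ i, c i ∉ K := fun i => disjoint_right.1 d ((hcZ _).2 ⟨i, rfl⟩)
  have dK : ∀ i j, Disjoint K (seg c i j) := by
    intro i j
    rw [disjoint_right]
    intro v hv
    obtain ⟨t, -, -, rfl⟩ := mem_seg.1 hv
    exact hcK' t
  have sZ : ∀ i, Z ⊆ seg c (i + 1) (i + m) := by
    intro i v hv
    obtain ⟨r, rfl⟩ := (hcZ v).1 hv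
    obtain ⟨s, a, b, e⟩ := hc.window (i + 1) r
    rw [← e]
    exact mem_seg' a (by omega)
  have sa := H.sg a
  have exL : ∀ y ∈ K, y ≠ a → ∃ L, y ∈ L ∧ L ⊆ K ∧ a ∉ L ∧ Conn G L ∧
      (∀ u ∈ L, ∀ v, G.Adj u v → v ∈ L ∨ v ∈ insert a Z) ∧ ∃ x ∈ L, G.Adj x a := by
    intro y hy hya
    obtain ⟨L, l1, l2, l3, l4⟩ := exists_comp (G := G) (K.erase a) (x := y) (by simp [hy, hya])
    have l5 : a ∉ L := fun h => by simpa using l1 h
    have l6 : L ⊆ K := l1.trans (erase_subset _ _)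
    have l7 : ∀ u ∈ L, ∀ v, G.Adj u v → v ∈ L ∨ v ∈ insert a Z := by
      intro u hu v e
      by_cases hv : v = a
      · right; simp [hv]
      · rcases hcK u (l6 hu) v e with h | h
        · exact Or.inl (l4 u hu v (by simp [h, hv]) e)
        · right; simp [h]
    refine ⟨L, l2, l6, l5, l3, l7, ?_⟩
    by_contra hno
    push Not at hno
    obtain ⟨Q, hQ, hq⟩ := hK y hy a haK
    refine l5 (hq.closed (Z := Z) l2 ?_ (d.mono_left hQ))
    intro u hu v e
    rcases l7 u hu v e with h | h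
    · exact Or.inl h
    · rcases mem_insert.1 h with rfl | h
      · exact absurd e (hno u hu)
      · exact Or.inr h
  have key : ∀ y ∈ K, y ≠ a → σ y = - σ a ∧ G.Adj y a := by
    intro y0 hy0 hya
    obtain ⟨L, l2, l6, l5, l3, l7, x, hx, ex⟩ := exL y0 hy0 hya
    have sx := H.adj _ _ ex
    have dL : Disjoint L Z := d.mono_left l6
    have A : ∀ y ∈ L, ∀ v ∈ Z, G.Adj y v → 2 * ∑ v ∈ L, σ v = σ y - σ a := by
      intro y hy v hv e
      obtain ⟨i, rfl⟩ := (hcZ v).1 hv
      obtain ⟨y', hy', e'⟩ := (hg (c (i + 1))).resolve_left (hcK' _)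
      have p0 := hc.path (i := i + 1) (j := i + m) (by omega) (by omega)
      rw [hc.per] at p0
      have hci : c i ∈ seg c (i + 1) (i + m) := p0.right_mem
      by_cases hyL : y' ∈ L
      · exfalso
        obtain ⟨Q, hQ, hq⟩ := l3 y hy y' hyL
        have hZ' : IsCyc G (seg c (i + 1) (i + m) ∪ Q) := ⟨c (i + 1), y', c i,
          p0.join hq e.symm ((dK _ _).mono_left (hQ.trans l6)).symm, e', mem_union_left _ hci,
          (hc.adj i).ne, fun h => hcK' i (h ▸ hy')⟩
        have := hmax _ (mem_filter.2 ⟨mem_univ _, hZ', by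
          rw [mem_union, not_or]
          exact ⟨disjoint_left.1 (dK _ _) haK, fun h => l5 (hQ h)⟩⟩)
        have h2 : #Z < #(seg c (i + 1) (i + m) ∪ Q) := card_lt_card ⟨(sZ i).trans subset_union_left,
          fun h => disjoint_left.1 dL hy (h (mem_union_right _ hq.left_mem))⟩
        omega
      · obtain ⟨Q2, q1, q2, q3⟩ : ∃ Q2, Q2 ⊆ K ∧ Disjoint L Q2 ∧ P G a y' Q2 := by
          by_cases hya' : y' = a
          · rw [hya']
            exact ⟨{a}, by simpa using haK, by simpa using l5, P.single _⟩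
          · obtain ⟨L', m2, m6, m5, m3, -, x', hx', ex'⟩ := exL y' hy' hya'
            obtain ⟨Q', hQ', hq'⟩ := m3 x' hx' y' m2
            have dd : Disjoint L L' := by
              rw [disjoint_right]
              intro w hw hwL
              exact hyL (m3.sub hw hwL l7 (disjoint_insert_right.2 ⟨m5, d.mono_left m6⟩) m2)
            refine ⟨{a} ∪ Q', union_subset (by simpa using haK) (hQ'.trans m6),
              disjoint_union_right.2 ⟨by simpa using l5, dd.mono_right hQ'⟩,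
              (P.single a).join hq' ex'.symm (by simpa using fun h => m5 (hQ' h))⟩
        obtain ⟨Q, hQ, hq⟩ := l3 y hy x hx
        have hZ' : IsCyc G (seg c (i + 1) (i + m) ∪ Q ∪ Q2) := ⟨c (i + 1), y', c i,
          (p0.join hq e.symm ((dK _ _).mono_left (hQ.trans l6)).symm).join q3 ex
            (disjoint_union_left.2 ⟨((dK _ _).mono_left q1).symm, q2.mono_left hQ⟩), e',
          mem_union_left _ (mem_union_left _ hci), (hc.adj i).ne, fun h => hcK' i (h ▸ hy')⟩
        have b1 := H.bal _ (L \ Q) hZ' (disjoint_union_right.2 ⟨disjoint_union_right.2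
          ⟨(dK _ _).mono_left (sdiff_subset.trans l6), sdiff_disjoint⟩, q2.mono_left sdiff_subset⟩) (by
            intro u hu v e
            rcases l7 u (mem_sdiff.1 hu).1 v e with h | h
            · by_cases hv : v ∈ Q
              · exact Or.inr (mem_union_left _ (mem_union_right _ hv))
              · exact Or.inl (mem_sdiff.2 ⟨h, hv⟩)
            · rcases mem_insert.1 h with rfl | h
              · exact Or.inr (mem_union_right _ q3.left_mem)
              · exact Or.inr (mem_union_left _ (mem_union_left _ (sZ i h))))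
        have b2 := sum_sdiff (f := σ) hQ
        have b3 := hq.weight H.adj
        omega
    have two : ∀ ε : ℤ, ε = 1 ∨ ε = -1 → ∃ p q, p ≠ q ∧ p ∉ L ∧ q ∉ L ∧ σ p = ε ∧ σ q = ε := by
      intro ε hε
      obtain ⟨p, q, hpq, hp, hq, sp, sq⟩ := H.cyc_two hZ hε
      exact ⟨p, q, hpq, disjoint_right.1 dL hp, disjoint_right.1 dL hq, sp, sq⟩
    have B1 : (∀ y ∈ L, σ y = - σ a → ∀ v ∈ Z, ¬ G.Adj y v) → 1 ≤ σ a * ∑ v ∈ L, σ v := by
      intro h
      have := H.br (- σ a) L {a} ⟨x, hx, sx⟩ (two _ (by omega)) (by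
        intro u hu su v e
        rcases l7 u hu v e with h' | h'
        · exact Or.inl h'
        · rcases mem_insert.1 h' with rfl | h'
          · simp
          · exact absurd e (h u hu su v h'))
      simp only [card_singleton] at this
      have h4 : -σ a * ∑ v ∈ L, σ v = -(σ a * ∑ v ∈ L, σ v) := by ring
      omega
    have B2 : ∀ y ∈ L, σ y = σ a → ∀ v ∈ Z, ¬ G.Adj y v := by
      intro y hy sy v hv e
      have w := A y hy v hv e
      have := B1 (by
        intro y' hy' sy' v' hv' e'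
        have := A y' hy' v' hv' e'
        omega)
      have w0 : ∑ v ∈ L, σ v = 0 := by omega
      rw [w0] at this
      omega
    have B3 : ∀ y ∈ L, σ y = - σ a := by
      intro y hy
      by_contra sy
      have sy' : σ y = σ a := by have := H.sg y; omega
      have b1 := H.br (σ a) L ∅ ⟨y, hy, sy'⟩ (two _ sa) (by
        intro u hu su v e
        rcases l7 u hu v e with h' | h'
        · exact Or.inl h'
        · rcases mem_insert.1 h' with rfl | h'
          · have := H.adj _ _ e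
            omega
          · exact absurd e (B2 u hu su v h'))
      simp only [card_empty] at b1
      have := B1 (by
        intro y' hy' sy' v' hv' e'
        have := A y' hy' v' hv' e'
        have w : ∑ v ∈ L, σ v = - σ a := by omega
        rw [w] at b1
        rcases sa with h | h <;> rw [h] at b1 <;> omega)
      omega
    refine ⟨B3 y0 l2, ?_⟩
    obtain ⟨Q, hQ, hq⟩ := l3 x hx y0 l2
    cases hq with
    | single => exact ex
    | snoc h1 h2 h3 =>
      have s1 := H.adj _ _ h2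
      have s2 := B3 _ (hQ (mem_insert_of_mem h1.right_mem))
      have s3 := B3 y0 l2
      omega
  rcases hg b with h | ⟨u, hu, e⟩
  · exact (key b h (by rintro rfl; omega)).2.symm
  · by_cases hua : u = a
    · rwa [hua] at e
    · have := (key u hu hua).1
      have := H.adj _ _ e
      omega

end Pool.Agent.MP_0b7570_co

end

-- part MP_0b7570_co.Bridge
section

/-! From the matching-theoretic hypotheses to the combinatorial ones. -/

namespace Pool.Agent.MP_0b7570_co

open Finset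

set_option linter.unusedSectionVars false

theorem pm_fun {W : Type*} {G : SimpleGraph W} {N : G.Subgraph} (h : N.IsPerfectMatching) :
    ∃ f : W → W, (∀ v, G.Adj v (f v)) ∧ (∀ v, f (f v) = v) ∧ ∀ v w, N.Adj v w → f v = w := by
  rw [SimpleGraph.Subgraph.isPerfectMatching_iff] at h
  choose f hf hu using h
  exact ⟨f, fun v => N.adj_sub (hf v), fun v => (hu _ _ (hf v).symm).symm,
    fun v w e => (hu v w e).symm⟩

variable {V : Type*} [DecidableEq V] [Fintype V] {G : SimpleGraph V} {σ : V → ℤ}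

theorem P.walk {x y : V} {S : Finset V} (h : P G x y S) :
    ∃ p : G.Walk x y, p.IsPath ∧ ∀ v, v ∈ p.support ↔ v ∈ S := by
  induction h with
  | single => exact ⟨.nil, by simp, by simp⟩
  | snoc h1 h2 h3 ih =>
    obtain ⟨p, hp, hs⟩ := ih
    exact ⟨p.concat h2, hp.concat (by rwa [hs]) h2, fun v => by simp [hs, or_comm]⟩

theorem IsCyc.walk {Z : Finset V} (h : IsCyc G Z) :
    ∃ (v : V) (c : G.Walk v v), c.IsCycle ∧ ∀ w, w ∈ c.support ↔ w ∈ Z := by
  obtain ⟨x, y, z, hp, e, hz, hx, hy⟩ := h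
  obtain ⟨p, hpp, hs⟩ := hp.walk
  refine ⟨y, p.cons e, (SimpleGraph.Walk.cons_isCycle_iff p e).2 ⟨hpp, fun h => ?_⟩, fun w => ?_⟩
  · have h1 := hpp.length_eq_one_of_mem_edges (Sym2.eq_swap ▸ h)
    have h2 := (hs z).2 hz
    cases p with
    | nil => simp at h1
    | cons a q =>
      cases q with
      | nil => simp [hx, hy] at h2
      | cons b r => simp at h1
  · simp only [SimpleGraph.Walk.support_cons, List.mem_cons, hs]
    constructor
    · rintro (rfl | h)
      · exact hp.right_mem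
      · exact h
    · exact Or.inr

theorem bal_of (hs : ∀ u v, G.Adj u v → σ u = - σ v) (hbip : G.Colorable 2)
    (hconf : ∀ (v : V) (c : G.Walk v v), c.IsCycle → Even c.length →
      ∃ M : (G.induce {w | w ∉ c.support}).Subgraph, M.IsPerfectMatching)
    (Z U : Finset V) (hZ : IsCyc G Z) (d : Disjoint U Z)
    (hc : ∀ u ∈ U, ∀ v, G.Adj u v → v ∈ U ∨ v ∈ Z) : ∑ v ∈ U, σ v = 0 := by
  obtain ⟨v, c, hcyc, hsup⟩ := hZ.walk
  obtain ⟨M, hM⟩ := hconf v c hcyc (SimpleGraph.two_colorable_iff_forall_loop_even.1 hbip v c)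
  obtain ⟨f, f1, f2, -⟩ := pm_fun hM
  have hU : ∀ u ∈ U, u ∈ {w | w ∉ c.support} := fun u hu h =>
    disjoint_left.1 d hu ((hsup u).1 h)
  have fa : ∀ u (hu : u ∈ U), G.Adj u (f ⟨u, hU u hu⟩).1 := fun u hu => f1 ⟨u, hU u hu⟩
  have fm : ∀ u (hu : u ∈ U), (f ⟨u, hU u hu⟩).1 ∈ U := fun u hu =>
    (hc u hu _ (fa u hu)).resolve_right fun h => (f ⟨u, hU u hu⟩).2 ((hsup _).2 h)
  refine sum_involution (fun u hu => (f ⟨u, hU u hu⟩).1) ?_ ?_ fm ?_
  · intro u hu
    have := hs _ _ (fa u hu)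
    omega
  · intro u hu _
    exact (fa u hu).ne'
  · intro u hu
    exact congrArg Subtype.val (f2 ⟨u, hU u hu⟩)

theorem cross (h2 : ∀ v, (G.induce {w | w ≠ v}).Connected) (S : Set V) {v x y : V} (hx : x ≠ v)
    (hy : y ≠ v) (xS : x ∈ S) (yS : y ∉ S) :
    ∃ u w, u ≠ v ∧ w ≠ v ∧ u ∈ S ∧ w ∉ S ∧ G.Adj u w := by
  obtain ⟨p⟩ := (h2 v).preconnected ⟨x, hx⟩ ⟨y, hy⟩
  obtain ⟨d, -, d1, d2⟩ := p.exists_boundary_dart {z | z.1 ∈ S} xS yS
  exact ⟨d.fst.1, d.snd.1, d.fst.2, d.snd.2, d1, d2, d.adj⟩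

theorem ext_two
    (hext : ∀ M : G.Subgraph, M.IsMatching → M.edgeSet.ncard ≤ 2 →
      ∃ N : G.Subgraph, N.IsPerfectMatching ∧ M ≤ N)
    {u w u' w' : V} (e : G.Adj u w) (e' : G.Adj u' w') (h1 : u ≠ u') (h2 : u ≠ w') (h3 : w ≠ u')
    (h4 : w ≠ w') :
    ∃ f : V → V, (∀ v, G.Adj v (f v)) ∧ (∀ v, f (f v) = v) ∧ f u = w ∧ f u' = w' := by
  obtain ⟨N, hN, hle⟩ := hext (G.subgraphOfAdj e ⊔ G.subgraphOfAdj e')
    ((SimpleGraph.Subgraph.IsMatching.subgraphOfAdj e).sup
      (SimpleGraph.Subgraph.IsMatching.subgraphOfAdj e') (by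
        rw [SimpleGraph.support_subgraphOfAdj, SimpleGraph.support_subgraphOfAdj]
        simp [h1.symm, h2.symm, h3.symm, h4.symm])) (by
      rw [SimpleGraph.Subgraph.edgeSet_sup, SimpleGraph.edgeSet_subgraphOfAdj,
        SimpleGraph.edgeSet_subgraphOfAdj]
      exact (Set.ncard_union_le _ _).trans (by simp))
  obtain ⟨f, f1, f2, f3⟩ := pm_fun hN
  exact ⟨f, f1, f2, f3 _ _ (hle.2 (Or.inl (SimpleGraph.subgraphOfAdj_adj_self e))),
    f3 _ _ (hle.2 (Or.inr (SimpleGraph.subgraphOfAdj_adj_self e')))⟩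

theorem br_of (sg : ∀ v, σ v = 1 ∨ σ v = -1) (hs : ∀ u v, G.Adj u v → σ u = - σ v)
    (h2 : ∀ v, (G.induce {w | w ≠ v}).Connected)
    (hext : ∀ M : G.Subgraph, M.IsMatching → M.edgeSet.ncard ≤ 2 →
      ∃ N : G.Subgraph, N.IsPerfectMatching ∧ M ≤ N)
    (ε : ℤ) (U S : Finset V) (hU : ∃ u ∈ U, σ u = ε)
    (two : ∃ p q, p ≠ q ∧ p ∉ U ∧ q ∉ U ∧ σ p = ε ∧ σ q = ε)
    (hc : ∀ u ∈ U, σ u = ε → ∀ v, G.Adj u v → v ∈ U ∨ v ∈ S) : ε * ∑ v ∈ U, σ v + 2 ≤ #S := by
  classical
  obtain ⟨x0, hx0, sx0⟩ := hU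
  obtain ⟨p, q, hpq, hp, hq, sp, sq⟩ := two
  have hε : ε = 1 ∨ ε = -1 := sx0 ▸ sg x0
  set X := U.filter fun v => σ v = ε with hX
  set Y := univ.filter fun v => ∃ x ∈ X, G.Adj x v with hY
  have mX : ∀ v, v ∈ X ↔ v ∈ U ∧ σ v = ε := fun v => mem_filter
  have mY : ∀ v, v ∈ Y ↔ ∃ x ∈ X, G.Adj x v := fun v => by simp only [hY, mem_filter, mem_univ, true_and]
  have sY : ∀ v ∈ Y, σ v = -ε := by
    intro v hv
    obtain ⟨x, hx, e⟩ := (mY v).1 hv
    have := hs _ _ e
    have := ((mX x).1 hx).2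
    omega
  have cr : ∀ v, v ∉ X → ∃ u w, u ≠ v ∧ w ≠ v ∧ u ∈ Y ∧ w ∉ X ∧ σ w = ε ∧ G.Adj u w := by
    intro v hv
    have hx : x0 ∈ X := (mX _).2 ⟨hx0, sx0⟩
    obtain ⟨y, y1, y2, y3⟩ : ∃ y, y ≠ v ∧ y ∉ U ∧ σ y = ε := by
      by_cases h : p = v
      · exact ⟨q, fun h' => hpq (h.trans h'.symm), hq, sq⟩
      · exact ⟨p, h, hp, sp⟩
    obtain ⟨u, w, a1, a2, a3, a4, e⟩ := cross h2 {z | z ∈ X ∨ z ∈ Y} (v := v) (x := x0) (y := y)
      (fun h => hv (h ▸ hx)) y1 (Or.inl hx) (by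
        rintro (h | h)
        · exact y2 ((mX _).1 h).1
        · have := sY _ h
          omega)
    simp only [Set.mem_ofPred_eq, not_or] at a3 a4
    have hu : u ∈ Y := a3.resolve_left fun h => a4.2 ((mY _).2 ⟨u, h, e⟩)
    have := sY _ hu
    have := hs _ _ e
    exact ⟨u, w, a1, a2, hu, a4.1, by omega, e⟩
  have nX : ∀ u ∈ Y, u ∉ X := by
    intro u hu h
    have := sY u hu
    have := ((mX u).1 h).2
    omega
  obtain ⟨u, w, u', w', hu, hw, sw, e, hu', hw', sw', e', n1, n2⟩ : ∃ u w u' w', u ∈ Y ∧ w ∉ X ∧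
      σ w = ε ∧ G.Adj u w ∧ u' ∈ Y ∧ w' ∉ X ∧ σ w' = ε ∧ G.Adj u' w' ∧ u ≠ u' ∧ w ≠ w' := by
    obtain ⟨u0, w0, -, -, a1, a2, a3, a4⟩ := cr p (fun h => hp ((mX _).1 h).1)
    obtain ⟨u1, w1, b0, -, b1, b2, b3, b4⟩ := cr u0 (nX _ a1)
    obtain ⟨u2, w2, -, c0, c1, c2, c3, c4⟩ := cr w0 a2
    by_cases h1 : w1 = w0
    · by_cases h2 : u2 = u0
      · exact ⟨u1, w1, u2, w2, b1, b2, b3, b4, c1, c2, c3, c4, by rwa [h2], by rw [h1]; exact c0.symm⟩
      · exact ⟨u2, w2, u0, w0, c1, c2, c3, c4, a1, a2, a3, a4, h2, c0⟩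
    · exact ⟨u1, w1, u0, w0, b1, b2, b3, b4, a1, a2, a3, a4, b0, h1⟩
  have su := sY _ hu
  have su' := sY _ hu'
  obtain ⟨f, f1, f2, f3, f4⟩ := ext_two hext e e' n1 (by rintro rfl; omega) (by rintro rfl; omega) n2
  have k1 : #X ≤ #(Y \ {u, u'}) := by
    refine card_le_card_of_injOn f ?_ ?_
    · intro x hx
      have hx : x ∈ X := hx
      simp only [coe_sdiff, coe_insert, coe_singleton, Set.mem_sdiff, mem_coe, Set.mem_insert_iff,
        Set.mem_singleton_iff, not_or]
      refine ⟨(mY _).2 ⟨x, hx, f1 x⟩, fun h => hw ?_, fun h => hw' ?_⟩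
      · rw [← f3, ← h, f2]; exact hx
      · rw [← f4, ← h, f2]; exact hx
    · intro x _ y _ h
      rw [← f2 x, h, f2]
  have k2 : #(Y \ {u, u'}) + 2 = #Y := by
    rw [← card_pair n1]
    exact card_sdiff_add_card_eq_card (by simp [insert_subset_iff, hu, hu'])
  have k3 : #Y ≤ #(U.filter fun v => ¬ σ v = ε) + #S := by
    refine (card_le_card ?_).trans (card_union_le _ _)
    intro v hv
    have := sY v hv
    obtain ⟨x, hx, ex⟩ := (mY v).1 hv
    rcases hc x ((mX x).1 hx).1 ((mX x).1 hx).2 v ex with h | h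
    · exact mem_union_left _ (mem_filter.2 ⟨h, by omega⟩)
    · exact mem_union_right _ h
  have k4 : ∑ v ∈ U, σ v = #X * ε + #(U.filter fun v => ¬ σ v = ε) * (-ε) := by
    rw [← sum_filter_add_sum_filter_not U (fun v => σ v = ε), ← nsmul_eq_mul, ← nsmul_eq_mul,
      ← sum_const, ← sum_const]
    congr 1
    · exact sum_congr rfl fun v hv => (mem_filter.1 hv).2
    · refine sum_congr rfl fun v hv => ?_
      have := (mem_filter.1 hv).2
      have := sg v
      omega
  rw [k4]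
  rcases hε with rfl | rfl <;> omega

theorem deg_two (hcard : 4 ≤ Fintype.card V) (h2 : ∀ v, (G.induce {w | w ≠ v}).Connected)
    (v x : V) : ∃ z, G.Adj v z ∧ z ≠ x := by
  have ex : ∀ a b : V, ∃ c, c ≠ a ∧ c ≠ b := by
    intro a b
    by_contra h
    push Not at h
    have h1 : (univ : Finset V) ⊆ {a, b} := by
      intro c _
      by_cases hc : c = a
      · simp [hc]
      · simp [h c hc]
    have h3 := card_le_card h1
    have h4 : #({a, b} : Finset V) ≤ 2 := card_le_two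
    rw [card_univ] at h3
    omega
  have key : ∀ x, x ≠ v → ∃ z, G.Adj v z ∧ z ≠ x := by
    intro x hx
    obtain ⟨y, y1, y2⟩ := ex v x
    obtain ⟨u, w, -, a2, a3, -, e⟩ := cross h2 {v} (v := x) (x := v) (y := y) hx.symm y2 rfl y1
    rw [Set.mem_singleton_iff.1 a3] at e
    exact ⟨w, e, a2⟩
  by_cases hx : x = v
  · obtain ⟨y, y1, -⟩ := ex v v
    obtain ⟨z, e, -⟩ := key y y1
    exact ⟨z, e, hx ▸ e.ne'⟩
  · exact key x hx

theorem complete_of (sg : ∀ v, σ v = 1 ∨ σ v = -1) (hs : ∀ u v, G.Adj u v → σ u = - σ v)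
    (hbip : G.Colorable 2) (hcard : 4 ≤ Fintype.card V)
    (h2 : ∀ v, (G.induce {w | w ≠ v}).Connected)
    (hext : ∀ M : G.Subgraph, M.IsMatching → M.edgeSet.ncard ≤ 2 →
      ∃ N : G.Subgraph, N.IsPerfectMatching ∧ M ≤ N)
    (hconf : ∀ (v : V) (c : G.Walk v v), c.IsCycle → Even c.length →
      ∃ M : (G.induce {w | w ∉ c.support}).Subgraph, M.IsPerfectMatching)
    (a b : V) (hab : σ b = - σ a) : G.Adj a b := by
  by_contra hn
  have three : ∀ a b, σ b = - σ a → ¬ G.Adj a b → ∃ p q, p ≠ q ∧ p ≠ b ∧ q ≠ b ∧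
      σ p = σ b ∧ σ q = σ b := by
    intro a b hab hn
    obtain ⟨p, ep, -⟩ := deg_two hcard h2 a a
    obtain ⟨q, eq, hq⟩ := deg_two hcard h2 a p
    have := hs _ _ ep
    have := hs _ _ eq
    exact ⟨p, q, hq.symm, fun h => hn (h ▸ ep), fun h => hn (h ▸ eq), by omega, by omega⟩
  have three' : ∀ v, ∃ r p q, p ≠ q ∧ p ≠ r ∧ q ≠ r ∧ σ p = σ v ∧ σ q = σ v ∧ σ r = σ v := by
    intro v
    by_cases h : σ v = σ b
    · obtain ⟨p, q, h1, h2, h3, h4, h5⟩ := three a b hab hn
      exact ⟨b, p, q, h1, h2, h3, by omega, by omega, by omega⟩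
    · obtain ⟨p, q, h1, h2, h3, h4, h5⟩ := three b a (by omega) (fun e => hn e.symm)
      have := sg v
      have := sg a
      exact ⟨a, p, q, h1, h2, h3, by omega, by omega, by omega⟩
  refine hn (Hyp.complete ⟨sg, hs, bal_of hs hbip hconf, br_of sg hs h2 hext, ?_⟩ a b hab)
  intro v x y
  by_contra hno
  push Not at hno
  have := br_of sg hs h2 hext (σ v) {v} {x, y} ⟨v, by simp, rfl⟩ (by
    obtain ⟨r, p, q, h1, h2, h3, h4, h5, h6⟩ := three' v
    simp only [mem_singleton]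
    by_cases k1 : p = v
    · exact ⟨q, r, h3, k1 ▸ h1.symm, k1 ▸ h2.symm, h5, h6⟩
    · by_cases k2 : q = v
      · exact ⟨p, r, h2, k1, k2 ▸ h3.symm, h4, h6⟩
      · exact ⟨p, q, h1, k1, k2, h4, h5⟩) (by
    intro u hu _ z e
    rw [mem_singleton.1 hu] at e
    right
    by_cases hz : z = x
    · simp [hz]
    · simp [hno z e hz])
  have h4 : #({x, y} : Finset V) ≤ 2 := card_le_two
  rw [sum_singleton] at this
  rcases sg v with h | h <;> rw [h] at this <;> omega

theorem main (hbip : G.Colorable 2) (hcard : 4 ≤ Fintype.card V)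
    (h2 : ∀ v, (G.induce {w | w ≠ v}).Connected)
    (hext : ∀ M : G.Subgraph, M.IsMatching → M.edgeSet.ncard ≤ 2 →
      ∃ N : G.Subgraph, N.IsPerfectMatching ∧ M ≤ N)
    (hpm : ∃ M : G.Subgraph, M.IsPerfectMatching)
    (hconf : ∀ (v : V) (c : G.Walk v v), c.IsCycle → Even c.length →
      ∃ M : (G.induce {w | w ∉ c.support}).Subgraph, M.IsPerfectMatching) :
    ∃ t : ℕ, 2 ≤ t ∧ Nonempty (G ≃g completeBipartiteGraph (Fin t) (Fin t)) := by
  classical
  obtain ⟨C⟩ := id hbip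
  have hC : ∀ u v, G.Adj u v → (C u = 0 ↔ ¬ C v = 0) := by
    intro u v e
    have := C.valid e
    revert this
    generalize C u = i
    generalize C v = j
    revert i j
    decide
  have hK : ∀ a b, C a = 0 → ¬ C b = 0 → G.Adj a b := by
    intro a b ha hb
    refine complete_of (σ := fun v => if C v = 0 then 1 else -1) ?_ ?_ hbip hcard h2 hext hconf a b
      (by simp [ha, hb])
    · intro v
      by_cases h : C v = 0 <;> simp [h]
    · intro u v e
      have := hC u v e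
      by_cases h : C v = 0 <;> simp [h] at this ⊢ <;> simp [this]
  obtain ⟨M, hM⟩ := hpm
  obtain ⟨f, f1, f2, -⟩ := pm_fun hM
  let g : {v // C v = 0} ≃ {v // ¬ C v = 0} :=
    { toFun := fun v => ⟨f v.1, (hC _ _ (f1 v.1)).1 v.2⟩
      invFun := fun v => ⟨f v.1, (hC _ _ (f1 v.1).symm).2 v.2⟩
      left_inv := fun v => Subtype.ext (f2 _)
      right_inv := fun v => Subtype.ext (f2 _) }
  have hg := Fintype.card_congr g
  have hsum := Fintype.card_congr (Equiv.sumCompl fun v => C v = 0)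
  rw [Fintype.card_sum] at hsum
  refine ⟨Fintype.card {v // C v = 0}, by omega, ⟨SimpleGraph.Iso.symm ⟨((Fintype.equivFin _).symm.sumCongr
    (Fintype.equivFinOfCardEq hg.symm).symm).trans (Equiv.sumCompl fun v => C v = 0), ?_⟩⟩⟩
  have pa : ∀ v : {v // C v = 0}, C v.1 = 0 := fun v => v.2
  have pb : ∀ v : {v // ¬ C v = 0}, ¬ C v.1 = 0 := fun v => v.2
  rintro (i | i) (j | j)
  · simp only [Equiv.trans_apply, Equiv.sumCongr_apply, Sum.map_inl, Equiv.sumCompl_apply_inl,
      completeBipartiteGraph_adj]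
    simp only [Sum.isLeft_inl, Sum.isRight_inl, Bool.false_eq_true, and_false, false_and, or_self,
      iff_false]
    exact fun e => (hC _ _ e).1 (pa _) (pa _)
  · simp only [Equiv.trans_apply, Equiv.sumCongr_apply, Sum.map_inl, Sum.map_inr,
      Equiv.sumCompl_apply_inl, Equiv.sumCompl_apply_inr, completeBipartiteGraph_adj]
    simp only [Sum.isLeft_inl, Sum.isRight_inr, and_self, true_or, iff_true]
    exact hK _ _ (pa _) (pb _)
  · simp only [Equiv.trans_apply, Equiv.sumCongr_apply, Sum.map_inl, Sum.map_inr,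
      Equiv.sumCompl_apply_inl, Equiv.sumCompl_apply_inr, completeBipartiteGraph_adj]
    simp only [Sum.isLeft_inl, Sum.isRight_inr, and_self, or_true, iff_true]
    exact (hK _ _ (pa _) (pb _)).symm
  · simp only [Equiv.trans_apply, Equiv.sumCongr_apply, Sum.map_inr, Equiv.sumCompl_apply_inr,
      completeBipartiteGraph_adj]
    simp only [Sum.isLeft_inr, Sum.isRight_inr, Bool.false_eq_true, and_false, false_and, or_self,
      iff_false]
    exact fun e => pb _ ((hC _ _ e).2 (pb _))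

end Pool.Agent.MP_0b7570_co

end
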